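import Mathlib

/-!
Alternating factors of 2-edge-coloured complete graphs, described by two fixed point free
involutions, and the ways of merging two alternating cycles.
-/

namespace Pool.Agent.DDH
open Finset

variable {W : Type*}

/-- `r` and `b` are perfect matchings in colour `true` and in colour `false`. -/
structure Fac (c : W → W → Bool) (r b : W → W) : Prop where
  rr : ∀ x, r (r x) = x
  bb : ∀ x, b (b x) = x
  rne : ∀ x, r x ≠ x
  bne : ∀ x, b x ≠ x
  rc : ∀ x, c x (r x) = true
  bc : ∀ x, c x (b x) = false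

/-- Sets of vertices closed under both matchings. -/
def Clo (r b : W → W) (S : Set W) : Prop := ∀ z, z ∈ S → r z ∈ S ∧ b z ∈ S

/-- A factor with a minimal family of closed sets, that is with fewest cycles. -/
def IsMin (c : W → W → Bool) (r b : W → W) : Prop :=
  Fac c r b ∧ ∀ r' b', Fac c r' b' → ¬ ({S | Clo r' b' S} ⊂ {S | Clo r b S})

/-- The opposite colouring. -/
def opp (c : W → W → Bool) : W → W → Bool := fun x y => !(c x y)

theorem opp_opp (c : W → W → Bool) : opp (opp c) = c := by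
  funext x y; simp [opp]

theorem Fac.swap {c : W → W → Bool} {r b : W → W} (h : Fac c r b) : Fac (opp c) b r where
  rr := h.bb
  bb := h.rr
  rne := h.bne
  bne := h.rne
  rc := fun x => by simp [opp, h.bc x]
  bc := fun x => by simp [opp, h.rc x]

theorem clo_swap (r b : W → W) (S : Set W) : Clo r b S ↔ Clo b r S :=
  ⟨fun h z hz => ⟨(h z hz).2, (h z hz).1⟩, fun h z hz => ⟨(h z hz).2, (h z hz).1⟩⟩

theorem IsMin.swap {c : W → W → Bool} {r b : W → W} (h : IsMin c r b) : IsMin (opp c) b r := by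
  refine ⟨h.1.swap, fun r' b' h' hs => ?_⟩
  have h1 := h'.swap
  rw [opp_opp] at h1
  apply h.2 b' r' h1
  have e1 : {S | Clo b' r' S} = {S | Clo r' b' S} := by
    ext S; exact clo_swap _ _ _
  have e2 : {S | Clo b r S} = {S | Clo r b S} := by
    ext S; exact clo_swap _ _ _
  rw [e1, ← e2]
  exact hs

theorem Clo.compl {c : W → W → Bool} {r b : W → W} (h : Fac c r b) {S : Set W}
    (hS : Clo r b S) : Clo r b Sᶜ := by
  intro z hz
  refine ⟨fun h1 => hz ?_, fun h1 => hz ?_⟩
  · have := (hS _ h1).1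
    rwa [h.rr] at this
  · have := (hS _ h1).2
    rwa [h.bb] at this

theorem Clo.r_iff {c : W → W → Bool} {r b : W → W} (h : Fac c r b) {S : Set W}
    (hS : Clo r b S) (z : W) : z ∈ S ↔ r z ∈ S :=
  ⟨fun h1 => (hS z h1).1, fun h1 => by have := (hS _ h1).1; rwa [h.rr] at this⟩

theorem Clo.b_iff {c : W → W → Bool} {r b : W → W} (h : Fac c r b) {S : Set W}
    (hS : Clo r b S) (z : W) : z ∈ S ↔ b z ∈ S :=
  ⟨fun h1 => (hS z h1).2, fun h1 => by have := (hS _ h1).2; rwa [h.bb] at this⟩

/-- A finite set with a fixed point free involution has even size. -/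
theorem even_of_invol [DecidableEq W] (T : Finset W) (f : W → W) (hf : ∀ x, f (f x) = x)
    (hne : ∀ x, f x ≠ x) (hT : ∀ x ∈ T, f x ∈ T) : Even T.card := by
  have h : ∑ _x ∈ T, (1 : ZMod 2) = 0 := by
    refine Finset.sum_involution (fun x _ => f x) ?_ ?_ ?_ ?_
    · intro a _; decide
    · intro a _ _; exact hne a
    · intro a ha; exact hT a ha
    · intro a _; exact hf a
  rw [sum_const, nsmul_eq_mul, mul_one] at h
  rw [ZMod.natCast_eq_zero_iff] at h
  exact even_iff_two_dvd.2 h

/-- Parity argument: the red edge at `x` may be bypassed. -/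
theorem parity [Fintype W] {c : W → W → Bool} {r b : W → W} (h : Fac c r b) {X : Set W}
    (hX : Clo r b X) {x : W} (hx : x ∈ X) (S : Set W)
    (hb : ∀ z ∈ S, z ∈ X → b z ∈ S) (hr : ∀ z ∈ S, z ∈ X → z ≠ x → z ≠ r x → r z ∈ S)
    (hxS : x ∈ S) : r x ∈ S := by
  classical
  by_contra hcon
  set T : Finset W := univ.filter (fun z => z ∈ S ∧ z ∈ X) with hT
  have h1 : Even T.card := by
    apply even_of_invol T b h.bb h.bne
    intro z hz
    simp only [hT, mem_filter, mem_univ, true_and] at hz ⊢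
    exact ⟨hb z hz.1 hz.2, (hX z hz.2).2⟩
  have h2 : Even (T.erase x).card := by
    apply even_of_invol _ r h.rr h.rne
    intro z hz
    simp only [hT, mem_erase, mem_filter, mem_univ, true_and] at hz ⊢
    have hzr : z ≠ r x := by
      rintro rfl
      exact hcon hz.2.1
    refine ⟨fun h3 => hzr ?_, hr z hz.2.1 hz.2.2 hz.1 hzr, (hX z hz.2.2).1⟩
    rw [← h3, h.rr]
  have hxT : x ∈ T := by simp [hT, hx, hxS]
  have h3 := card_erase_add_one hxT
  rw [← h3] at h1
  exact (Nat.even_add_one.1 h1) h2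

/-- Re-pair `p` with `q` and `f p` with `f q`. -/
noncomputable def sw (f : W → W) (p q : W) : W → W := by
  classical
  exact fun z => if z = p then q else if z = q then p else if z = f p then f q
    else if z = f q then f p else f z

theorem sw_p (f : W → W) (p q : W) : sw f p q p = q := by simp [sw]

theorem sw_q (f : W → W) {p q : W} (hpq : p ≠ q) : sw f p q q = p := by simp [sw, hpq.symm]

theorem sw_fp {f : W → W} (hf : ∀ x, f (f x) = x) (hne : ∀ x, f x ≠ x) {p q : W}
    (hq : q ≠ f p) : sw f p q (f p) = f q := by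
  simp [sw, hne p, hq.symm]

theorem sw_fq {f : W → W} (hf : ∀ x, f (f x) = x) (hne : ∀ x, f x ≠ x) {p q : W}
    (hpq : p ≠ q) (hq : q ≠ f p) : sw f p q (f q) = f p := by
  have h1 : f q ≠ p := by rintro rfl; exact hq (hf q).symm
  have h2 : f q ≠ f p := fun h => hpq (by rw [← hf p, ← h, hf q])
  simp [sw, h1, h2, hne q]

theorem sw_else {f : W → W} {p q z : W} (h1 : z ≠ p) (h2 : z ≠ q) (h3 : z ≠ f p) (h4 : z ≠ f q) :
    sw f p q z = f z := by
  simp [sw, h1, h2, h3, h4]

theorem sw_cases (f : W → W) (p q z : W) :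
    z = p ∨ z = q ∨ z = f p ∨ z = f q ∨ (z ≠ p ∧ z ≠ q ∧ z ≠ f p ∧ z ≠ f q) := by
  tauto

theorem sw_sw {f : W → W} (hf : ∀ x, f (f x) = x) (hne : ∀ x, f x ≠ x) {p q : W}
    (hpq : p ≠ q) (hq : q ≠ f p) (z : W) : sw f p q (sw f p q z) = z := by
  rcases sw_cases f p q z with rfl | rfl | rfl | rfl | ⟨h1, h2, h3, h4⟩
  · rw [sw_p, sw_q f hpq]
  · rw [sw_q f hpq, sw_p]
  · rw [sw_fp hf hne hq, sw_fq hf hne hpq hq]
  · rw [sw_fq hf hne hpq hq, sw_fp hf hne hq]
  · rw [sw_else h1 h2 h3 h4, sw_else, hf]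
    · rintro rfl; exact h3 (hf z).symm
    · rintro rfl; exact h4 (hf z).symm
    · intro h; exact h1 (by rw [← hf z, h, hf])
    · intro h; exact h2 (by rw [← hf z, h, hf])

theorem sw_ne {f : W → W} (hf : ∀ x, f (f x) = x) (hne : ∀ x, f x ≠ x) {p q : W}
    (hpq : p ≠ q) (hq : q ≠ f p) (z : W) : sw f p q z ≠ z := by
  have h5 : f p ≠ f q := fun h => hpq (by rw [← hf p, h, hf q])
  rcases sw_cases f p q z with rfl | rfl | rfl | rfl | ⟨h1, h2, h3, h4⟩
  · rw [sw_p]; exact hpq.symm
  · rw [sw_q f hpq]; exact hpq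
  · rw [sw_fp hf hne hq]; exact h5.symm
  · rw [sw_fq hf hne hpq hq]; exact h5
  · rw [sw_else h1 h2 h3 h4]; exact hne z

variable [Fintype W] {c : W → W → Bool} {r b : W → W}

/-- Merging by exchanging two red edges. -/
theorem swap_red (hc : ∀ x y, c x y = c y x) (hmin : IsMin c r b) {X : Set W}
    (hX : Clo r b X) {x y : W} (hx : x ∈ X) (hy : y ∉ X) (h1 : c x y = true)
    (h2 : c (r x) (r y) = true) : False := by
  have hF := hmin.1
  have hrx : r x ∈ X := (hX x hx).1
  have hXc := hX.compl hF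
  have hry : r y ∉ X := (hXc y hy).1
  have hxy : x ≠ y := by rintro rfl; exact hy hx
  have hyr : y ≠ r x := by rintro rfl; exact hy hrx
  have hF' : Fac c (sw r x y) b := by
    refine ⟨sw_sw hF.rr hF.rne hxy hyr, hF.bb, sw_ne hF.rr hF.rne hxy hyr, hF.bne, ?_, hF.bc⟩
    intro z
    rcases sw_cases r x y z with rfl | rfl | rfl | rfl | ⟨h3, h4, h5, h6⟩
    · rw [sw_p]; exact h1
    · rw [sw_q r hxy, hc]; exact h1
    · rw [sw_fp hF.rr hF.rne hyr]; exact h2
    · rw [sw_fq hF.rr hF.rne hxy hyr, hc]; exact h2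
    · rw [sw_else h3 h4 h5 h6]; exact hF.rc z
  apply hmin.2 _ _ hF'
  refine ⟨?_, ?_⟩
  · intro S hS
    change Clo _ _ S at hS
    change Clo _ _ S
    intro z hz
    refine ⟨?_, (hS z hz).2⟩
    have hb : ∀ z ∈ S, b z ∈ S := fun z hz => (hS z hz).2
    have hr : ∀ z ∈ S, z ≠ x → z ≠ y → z ≠ r x → z ≠ r y → r z ∈ S := by
      intro z hz h3 h4 h5 h6
      have := (hS z hz).1
      rwa [sw_else h3 h4 h5 h6] at this
    by_cases hzX : z ∈ X
    · by_cases hzx : z = x ∨ z = r x
      · apply parity hF hX hzX S (fun z hz _ => hb z hz) _ hz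
        intro z' hz' hz'X h3 h4
        have h5 : z' ≠ x ∧ z' ≠ r x := by
          rcases hzx with rfl | rfl
          · exact ⟨h3, h4⟩
          · rw [hF.rr] at h4; exact ⟨h4, h3⟩
        exact hr z' hz' h5.1 (fun h => hy (h ▸ hz'X)) h5.2 (fun h => hry (h ▸ hz'X))
      · push Not at hzx
        exact hr z hz hzx.1 (fun h => hy (h ▸ hzX)) hzx.2 (fun h => hry (h ▸ hzX))
    · by_cases hzy : z = y ∨ z = r y
      · apply parity hF hXc hzX S (fun z hz _ => hb z hz) _ hz
        intro z' hz' hz'X h3 h4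
        have h5 : z' ≠ y ∧ z' ≠ r y := by
          rcases hzy with rfl | rfl
          · exact ⟨h3, h4⟩
          · rw [hF.rr] at h4; exact ⟨h4, h3⟩
        exact hr z' hz' (fun h => hz'X (h ▸ hx)) h5.1 (fun h => hz'X (h ▸ hrx)) h5.2
      · push Not at hzy
        exact hr z hz (fun h => hzX (h ▸ hx)) hzy.1 (fun h => hzX (h ▸ hrx)) hzy.2
  · intro hsub
    have := hsub (show X ∈ {S | Clo r b S} from hX)
    have h3 := (this x hx).1
    rw [sw_p] at h3
    exact hy h3

/-- Between two unions of cycles of a minimal factor both matchings reverse the colour. -/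
theorem flip_red (hc : ∀ x y, c x y = c y x) (hmin : IsMin c r b) {X : Set W}
    (hX : Clo r b X) {x y : W} (hx : x ∈ X) (hy : y ∉ X) : c (r x) (r y) = !(c x y) := by
  classical
  have hF := hmin.1
  have hXc := hX.compl hF
  set P : Finset (W × W) := univ.filter (fun p => p.1 ∈ X ∧ p.2 ∉ X) with hP
  set T := P.filter (fun p => c p.1 p.2 = true) with hT
  set F := P.filter (fun p => ¬ (c p.1 p.2 = true)) with hFF
  have hcX : ∀ S, opp c S = opp c S := fun _ => rfl
  have hc' : ∀ x y, opp c x y = opp c y x := fun x y => by simp [opp, hc x y]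
  have hXs : Clo b r X := (clo_swap _ _ _).1 hX
  -- first map
  have him1 : T.image (Prod.map r r) ⊆ F := by
    intro q hq
    rw [mem_image] at hq
    obtain ⟨p, hp, rfl⟩ := hq
    simp only [hT, hFF, hP, mem_filter, mem_univ, true_and, Prod.map_fst, Prod.map_snd] at hp ⊢
    refine ⟨⟨(hX _ hp.1.1).1, (hXc _ hp.1.2).1⟩, fun h => ?_⟩
    exact swap_red hc hmin hX hp.1.1 hp.1.2 hp.2 h
  have hinj1 : (T.image (Prod.map r r)).card = T.card := by
    apply card_image_of_injective
    intro p q hpq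
    have h1 := congrArg Prod.fst hpq
    have h2 := congrArg Prod.snd hpq
    simp only [Prod.map_fst, Prod.map_snd] at h1 h2
    ext
    · rw [← hF.rr p.1, h1, hF.rr]
    · rw [← hF.rr p.2, h2, hF.rr]
  have him2 : F.image (Prod.map b b) ⊆ T := by
    intro q hq
    rw [mem_image] at hq
    obtain ⟨p, hp, rfl⟩ := hq
    simp only [hT, hFF, hP, mem_filter, mem_univ, true_and, Prod.map_fst, Prod.map_snd] at hp ⊢
    refine ⟨⟨(hX _ hp.1.1).2, (hXc _ hp.1.2).2⟩, ?_⟩
    by_contra h
    refine swap_red hc' hmin.swap hXs hp.1.1 hp.1.2 ?_ ?_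
    · simp only [opp, Bool.not_eq_true']
      simpa using hp.2
    · simp only [opp, Bool.not_eq_true']
      simpa using h
  have hinj2 : (F.image (Prod.map b b)).card = F.card := by
    apply card_image_of_injective
    intro p q hpq
    have h1 := congrArg Prod.fst hpq
    have h2 := congrArg Prod.snd hpq
    simp only [Prod.map_fst, Prod.map_snd] at h1 h2
    ext
    · rw [← hF.bb p.1, h1, hF.bb]
    · rw [← hF.bb p.2, h2, hF.bb]
  have h1 := card_le_card him1
  have h2 := card_le_card him2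
  rw [hinj1] at h1
  rw [hinj2] at h2
  have heq : T.image (Prod.map r r) = F := eq_of_subset_of_card_le him1 (by rw [hinj1]; exact h2)
  have hxyP : (x, y) ∈ P := by simp [hP, hx, hy]
  by_cases hcxy : c x y = true
  · have hm : (x, y) ∈ T := by rw [hT, mem_filter]; exact ⟨hxyP, hcxy⟩
    have h3 := him1 (mem_image_of_mem (Prod.map r r) hm)
    simp only [hFF, mem_filter, Prod.map_fst, Prod.map_snd] at h3
    rw [hcxy]
    simpa using h3.2
  · have hm : (x, y) ∈ F := by rw [hFF, mem_filter]; exact ⟨hxyP, hcxy⟩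
    rw [← heq, mem_image] at hm
    obtain ⟨p, hp, hpe⟩ := hm
    have h1 := congrArg Prod.fst hpe
    have h2 := congrArg Prod.snd hpe
    simp only [Prod.map_fst, Prod.map_snd] at h1 h2
    simp only [hT, mem_filter] at hp
    rw [← h1, ← h2, hF.rr, hF.rr]
    rw [hp.2]
    have h4 : c (r p.1) (r p.2) = false := by
      rw [h1, h2]; simpa using hcxy
    rw [h4]; rfl

theorem flip_blue (hc : ∀ x y, c x y = c y x) (hmin : IsMin c r b) {X : Set W}
    (hX : Clo r b X) {x y : W} (hx : x ∈ X) (hy : y ∉ X) : c (b x) (b y) = !(c x y) := by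
  have hc' : ∀ x y, opp c x y = opp c y x := fun x y => by simp [opp, hc x y]
  have hXs : Clo b r X := (clo_swap _ _ _).1 hX
  have := flip_red hc' hmin.swap hXs hx hy
  simp only [opp, Bool.not_not] at this
  rw [← this]
  simp

end Pool.Agent.DDH
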