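import Mathlib
import Pool.Agent.DDH.Merge

/-!
Merging with a chord.
-/

namespace Pool.Agent.DDH
open Finset

variable {W : Type*} [Fintype W] {c : W → W → Bool} {r b : W → W}

/-- Counting inside a union of cycles with a proper two-colouring `a` of its vertices. -/
theorem count_arg (hF : Fac c r b) {X : Set W} (hX : Clo r b X) (a : W → Bool)
    (har : ∀ z ∈ X, a (r z) = !(a z)) (hab : ∀ z ∈ X, a (b z) = !(a z)) (S : Set W)
    (hSr : ∀ z ∈ S, r z ∈ S) {x x' : W} (hx : x ∈ X) (hx' : x' ∈ X) (hne : x ≠ x')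
    (hax : a x = true) (hax' : a x' = true)
    (hSb : ∀ z ∈ S, z ∈ X → z ≠ x → z ≠ x' → z ≠ b x → z ≠ b x' → b z ∈ S)
    (hxx : x ∈ S ↔ x' ∈ S) (hbb : b x ∈ S ↔ b x' ∈ S) : x ∈ S ↔ b x ∈ S := by
  classical
  have habx : a (b x) = false := by rw [hab x hx, hax]; rfl
  have habx' : a (b x') = false := by rw [hab x' hx', hax']; rfl
  have hbx : b x ∈ X := (hX x hx).2
  have hbx' : b x' ∈ X := (hX x' hx').2
  have hbne : b x ≠ b x' := fun h => hne (by rw [← hF.bb x, h, hF.bb])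
  set T1 : Finset W := univ.filter (fun z => z ∈ S ∧ z ∈ X ∧ a z = true) with hT1
  set T0 : Finset W := univ.filter (fun z => z ∈ S ∧ z ∈ X ∧ a z = false) with hT0
  have h10 : T1.card ≤ T0.card := by
    apply card_le_card_of_injOn r
    · intro z hz
      simp only [hT1, hT0, coe_filter, mem_univ, true_and, Set.mem_ofPred_eq] at hz ⊢
      exact ⟨hSr z hz.1, (hX z hz.2.1).1, by rw [har z hz.2.1, hz.2.2]; rfl⟩
    · intro p _ q _ h
      rw [← hF.rr p, h, hF.rr]
  have h01 : T0.card ≤ T1.card := by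
    apply card_le_card_of_injOn r
    · intro z hz
      simp only [hT1, hT0, coe_filter, mem_univ, true_and, Set.mem_ofPred_eq] at hz ⊢
      exact ⟨hSr z hz.1, (hX z hz.2.1).1, by rw [har z hz.2.1, hz.2.2]; rfl⟩
    · intro p _ q _ h
      rw [← hF.rr p, h, hF.rr]
  constructor
  · intro hxS
    by_contra hbS
    have hx'S := hxx.1 hxS
    have hb'S : b x' ∉ S := fun h => hbS (hbb.2 h)
    have h3 : T0.card ≤ ((T1.erase x).erase x').card := by
      apply card_le_card_of_injOn b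
      · intro z hz
        simp only [hT1, hT0, coe_filter, mem_univ, true_and, Set.mem_ofPred_eq, coe_erase,
          Set.mem_sdiff, Set.mem_singleton_iff] at hz ⊢
        have e1 : z ≠ x := by rintro rfl; rw [hax] at hz; simp at hz
        have e2 : z ≠ x' := by rintro rfl; rw [hax'] at hz; simp at hz
        have e3 : z ≠ b x := by rintro rfl; exact hbS hz.1
        have e4 : z ≠ b x' := by rintro rfl; exact hb'S hz.1
        refine ⟨⟨⟨hSb z hz.1 hz.2.1 e1 e2 e3 e4, (hX z hz.2.1).2, by rw [hab z hz.2.1, hz.2.2]; rfl⟩, ?_⟩, ?_⟩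
        · intro h; exact e3 (by rw [← h, hF.bb])
        · intro h; exact e4 (by rw [← h, hF.bb])
      · intro p _ q _ h
        rw [← hF.bb p, h, hF.bb]
    have hxT : x ∈ T1 := by simp [hT1, hxS, hx, hax]
    have hx'T : x' ∈ T1.erase x := by simp [hT1, hx'S, hx', hax', hne.symm]
    rw [card_erase_of_mem hx'T, card_erase_of_mem hxT] at h3
    have := card_pos.2 ⟨x, hxT⟩
    omega
  · intro hbS
    by_contra hxS
    have hx'S : x' ∉ S := fun h => hxS (hxx.2 h)
    have hb'S := hbb.1 hbS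
    have h3 : T1.card ≤ ((T0.erase (b x)).erase (b x')).card := by
      apply card_le_card_of_injOn b
      · intro z hz
        simp only [hT1, hT0, coe_filter, mem_univ, true_and, Set.mem_ofPred_eq, coe_erase,
          Set.mem_sdiff, Set.mem_singleton_iff] at hz ⊢
        have e1 : z ≠ x := by rintro rfl; exact hxS hz.1
        have e2 : z ≠ x' := by rintro rfl; exact hx'S hz.1
        have e3 : z ≠ b x := by rintro rfl; rw [habx] at hz; simp at hz
        have e4 : z ≠ b x' := by rintro rfl; rw [habx'] at hz; simp at hz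
        refine ⟨⟨⟨hSb z hz.1 hz.2.1 e1 e2 e3 e4, (hX z hz.2.1).2, by rw [hab z hz.2.1, hz.2.2]; rfl⟩, ?_⟩, ?_⟩
        · intro h; exact e1 (by rw [← hF.bb z, h, hF.bb])
        · intro h; exact e2 (by rw [← hF.bb z, h, hF.bb])
      · intro p _ q _ h
        rw [← hF.bb p, h, hF.bb]
    have hxT : b x ∈ T0 := by simp [hT0, hbS, hbx, habx]
    have hx'T : b x' ∈ T0.erase (b x) := by simp [hT0, hb'S, hbx', habx', hbne.symm]
    rw [card_erase_of_mem hx'T, card_erase_of_mem hxT] at h3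
    have := card_pos.2 ⟨b x, hxT⟩
    omega

/-- Merging with a blue chord between two vertices of one class. -/
theorem chord (hc : ∀ x y, c x y = c y x) (hmin : IsMin c r b) {X : Set W}
    (hX : Clo r b X) (a : W → Bool)
    (har : ∀ z ∈ X, a (r z) = !(a z)) (hab : ∀ z ∈ X, a (b z) = !(a z))
    {x x' y : W} (hx : x ∈ X) (hx' : x' ∈ X) (hne : x ≠ x')
    (hax : a x = true) (hax' : a x' = true) (hy : y ∉ X)
    (h1 : c x x' = false) (h2 : c (b x) y = false) (h3 : c (b x') (b y) = false) : False := by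
  have hF := hmin.1
  have habx : a (b x) = false := by rw [hab x hx, hax]; rfl
  have habx' : a (b x') = false := by rw [hab x' hx', hax']; rfl
  have hbx : b x ∈ X := (hX x hx).2
  have hbx' : b x' ∈ X := (hX x' hx').2
  have hXc := hX.compl hF
  have hby : b y ∉ X := (hXc y hy).2
  have hbne : b x ≠ b x' := fun h => hne (by rw [← hF.bb x, h, hF.bb])
  have n1 : x' ≠ b x := by rintro rfl; rw [habx] at hax'; simp at hax'
  have n2 : x ≠ b x' := by rintro rfl; rw [habx'] at hax; simp at hax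
  have nxy : x ≠ y := fun h => hy (h ▸ hx)
  have nx'y : x' ≠ y := fun h => hy (h ▸ hx')
  have nxby : x ≠ b y := fun h => hby (h ▸ hx)
  have nx'by : x' ≠ b y := fun h => hby (h ▸ hx')
  have nbxy : b x ≠ y := fun h => hy (h ▸ hbx)
  have nbx'y : b x' ≠ y := fun h => hy (h ▸ hbx')
  have nbxby : b x ≠ b y := fun h => hby (h ▸ hbx)
  have nbx'by : b x' ≠ b y := fun h => hby (h ▸ hbx')
  -- first exchange
  set b1 := sw b x x' with hb1
  have b1bb : ∀ z, b1 (b1 z) = z := sw_sw hF.bb hF.bne hne n1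
  have b1ne : ∀ z, b1 z ≠ z := sw_ne hF.bb hF.bne hne n1
  have b1x : b1 x = x' := sw_p _ _ _
  have b1x' : b1 x' = x := sw_q _ hne
  have b1bx : b1 (b x) = b x' := sw_fp hF.bb hF.bne n1
  have b1bx' : b1 (b x') = b x := sw_fq hF.bb hF.bne hne n1
  have b1else : ∀ z, z ≠ x → z ≠ x' → z ≠ b x → z ≠ b x' → b1 z = b z :=
    fun z e1 e2 e3 e4 => sw_else e1 e2 e3 e4
  have b1y : b1 y = b y := b1else y nxy.symm nx'y.symm nbxy.symm nbx'y.symm
  -- second exchange
  have m1 : y ≠ b1 (b x) := by rw [b1bx]; exact nbx'y.symm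
  set b2 := sw b1 (b x) y with hb2
  have b2bb : ∀ z, b2 (b2 z) = z := sw_sw b1bb b1ne nbxy m1
  have b2ne : ∀ z, b2 z ≠ z := sw_ne b1bb b1ne nbxy m1
  have b2bx : b2 (b x) = y := sw_p _ _ _
  have b2y : b2 y = b x := sw_q _ nbxy
  have b2bx' : b2 (b x') = b y := by
    have := sw_fp b1bb b1ne m1
    rw [b1bx, b1y] at this
    exact this
  have b2by : b2 (b y) = b x' := by
    have := sw_fq b1bb b1ne nbxy m1
    rw [b1bx, b1y] at this
    exact this
  have b2x : b2 x = x' := by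
    rw [hb2, sw_else, b1x]
    · exact (hF.bne x).symm
    · exact nxy
    · rw [b1bx]; exact n2
    · rw [b1y]; exact nxby
  have b2x' : b2 x' = x := by
    rw [hb2, sw_else, b1x']
    · exact n1
    · exact nx'y
    · rw [b1bx]; exact (hF.bne x').symm
    · rw [b1y]; exact nx'by
  have b2else : ∀ z, z ≠ x → z ≠ x' → z ≠ b x → z ≠ b x' → z ≠ y → z ≠ b y → b2 z = b z := by
    intro z e1 e2 e3 e4 e5 e6
    rw [hb2, sw_else e3 e5 (by rw [b1bx]; exact e4) (by rw [b1y]; exact e6)]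
    exact b1else z e1 e2 e3 e4
  have hF' : Fac c r b2 := by
    refine ⟨hF.rr, b2bb, hF.rne, b2ne, hF.rc, ?_⟩
    intro z
    by_cases e1 : z = x
    · rw [e1, b2x, h1]
    by_cases e2 : z = x'
    · rw [e2, b2x', hc, h1]
    by_cases e3 : z = b x
    · rw [e3, b2bx, h2]
    by_cases e4 : z = b x'
    · rw [e4, b2bx', h3]
    by_cases e5 : z = y
    · rw [e5, b2y, hc, h2]
    by_cases e6 : z = b y
    · rw [e6, b2by, hc, h3]
    rw [b2else z e1 e2 e3 e4 e5 e6]
    exact hF.bc z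
  apply hmin.2 _ _ hF'
  refine ⟨?_, ?_⟩
  · intro S hS
    change Clo _ _ S at hS
    change Clo _ _ S
    have hr : ∀ z ∈ S, r z ∈ S := fun z hz => (hS z hz).1
    have hbi : ∀ z, z ∈ S ↔ b2 z ∈ S := hS.b_iff hF'
    have helse : ∀ z ∈ S, z ≠ x → z ≠ x' → z ≠ b x → z ≠ b x' → z ≠ y → z ≠ b y → b z ∈ S := by
      intro z hz e1 e2 e3 e4 e5 e6
      have := (hS z hz).2
      rwa [b2else z e1 e2 e3 e4 e5 e6] at this
    -- y and b y
    have key : ∀ v, (v = y ∨ v = b y) → v ∈ S → b v ∈ S := by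
      intro v hv hvS
      have hvX : v ∈ Xᶜ := by rcases hv with rfl | rfl <;> assumption
      refine parity hF.swap ((clo_swap _ _ _).1 hXc) hvX S (fun z hz _ => hr z hz) ?_ hvS
      intro z hz hzX e1 e2
      have h5 : z ≠ y ∧ z ≠ b y := by
        rcases hv with rfl | rfl
        · exact ⟨e1, e2⟩
        · rw [hF.bb] at e2; exact ⟨e2, e1⟩
      exact helse z hz (fun h => hzX (h ▸ hx)) (fun h => hzX (h ▸ hx')) (fun h => hzX (h ▸ hbx))
        (fun h => hzX (h ▸ hbx')) h5.1 h5.2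
    have hyby : y ∈ S ↔ b y ∈ S := ⟨key y (Or.inl rfl), fun h => by
      have := key (b y) (Or.inr rfl) h
      rwa [hF.bb] at this⟩
    have e1 : x ∈ S ↔ x' ∈ S := by rw [hbi x, b2x]
    have e2 : b x ∈ S ↔ y ∈ S := by rw [hbi (b x), b2bx]
    have e3 : b x' ∈ S ↔ b y ∈ S := by rw [hbi (b x'), b2bx']
    have e4 : b x ∈ S ↔ b x' ∈ S := by rw [e2, e3, hyby]
    have e5 : x ∈ S ↔ b x ∈ S := by
      refine count_arg hF hX a har hab S hr hx hx' hne hax hax' ?_ e1 e4
      intro z hz hzX f1 f2 f3 f4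
      exact helse z hz f1 f2 f3 f4 (fun h => hy (h ▸ hzX)) (fun h => hby (h ▸ hzX))
    intro z hz
    refine ⟨hr z hz, ?_⟩
    by_cases f1 : z = x
    · rw [f1] at hz ⊢; exact e5.1 hz
    by_cases f2 : z = x'
    · rw [f2] at hz ⊢; exact e4.1 (e5.1 (e1.2 hz))
    by_cases f3 : z = b x
    · rw [f3] at hz ⊢; rw [hF.bb]; exact e5.2 hz
    by_cases f4 : z = b x'
    · rw [f4] at hz ⊢; rw [hF.bb]; exact e1.1 (e5.2 (e4.2 hz))
    by_cases f5 : z = y
    · rw [f5] at hz ⊢; exact hyby.1 hz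
    by_cases f6 : z = b y
    · rw [f6] at hz ⊢; rw [hF.bb]; exact hyby.2 hz
    exact helse z hz f1 f2 f3 f4 f5 f6
  · intro hsub
    have := hsub (show X ∈ {S | Clo r b S} from hX)
    have h3 := (this (b x) hbx).2
    rw [b2bx] at h3
    exact hy h3

end Pool.Agent.DDH
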