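import Mathlib
import Pool.Agent.DDH.Chord

/-!
Classes (the alternating cycles) and the insertion of one alternating cycle in another.
-/

namespace Pool.Agent.DDH
open Finset Function

variable {W : Type*}

/-- The alternating cycle through `x`. -/
def cls (r b : W → W) (x : W) : Set W := {y | ∀ S, Clo r b S → (x ∈ S ↔ y ∈ S)}

theorem mem_cls_self (r b : W → W) (x : W) : x ∈ cls r b x := fun _ _ => Iff.rfl

theorem clo_cls {c : W → W → Bool} {r b : W → W} (hF : Fac c r b) (x : W) :
    Clo r b (cls r b x) := by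
  intro z hz
  exact ⟨fun S hS => (hz S hS).trans (hS.r_iff hF z), fun S hS => (hz S hS).trans (hS.b_iff hF z)⟩

theorem cls_subset {r b : W → W} {x : W} {S : Set W} (hS : Clo r b S) (hx : x ∈ S) :
    cls r b x ⊆ S := fun _ hy => (hy S hS).1 hx

theorem cls_symm {r b : W → W} {x y : W} (h : y ∈ cls r b x) : x ∈ cls r b y :=
  fun S hS => (h S hS).symm

theorem cls_trans {r b : W → W} {x y z : W} (h : y ∈ cls r b x) (h' : z ∈ cls r b y) :
    z ∈ cls r b x := fun S hS => (h S hS).trans (h' S hS)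

/-- Going two steps along an alternating cycle. -/
def sg (r b : W → W) : W → W := fun z => r (b z)

theorem sg_inj {c : W → W → Bool} {r b : W → W} (hF : Fac c r b) : Injective (sg r b) := by
  intro x y h
  have h1 : b x = b y := by rw [← hF.rr (b x), ← hF.rr (b y)]; exact congrArg r h
  rw [← hF.bb x, h1, hF.bb]

theorem sg_iter_ne {c : W → W → Bool} {r b : W → W} (hF : Fac c r b) :
    ∀ k : ℕ, ∀ z : W, (sg r b)^[k] z ≠ r z ∧ (sg r b)^[k] z ≠ b z := by
  intro k
  induction k using Nat.twoStepInduction with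
  | zero => intro z; exact ⟨(hF.rne z).symm, (hF.bne z).symm⟩
  | one =>
    intro z
    refine ⟨fun h => ?_, fun h => ?_⟩
    · simp only [iterate_one, sg] at h
      exact hF.bne z (by rw [← hF.rr (b z), h, hF.rr])
    · simp only [iterate_one, sg] at h
      exact hF.rne (b z) h
  | more k ih _ =>
    intro z
    have hk : (sg r b)^[k+2] z = sg r b ((sg r b)^[k] (sg r b z)) := by
      rw [show k + 2 = (k + 1) + 1 from rfl, iterate_succ_apply', ← iterate_succ_apply]
    refine ⟨fun h => ?_, fun h => ?_⟩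
    · rw [hk] at h
      -- σ^k (σ z) = b z = r (σ z)
      apply (ih (sg r b z)).1
      have h1 : b ((sg r b)^[k] (sg r b z)) = z := by
        have := congrArg r h
        simp only [sg] at this ⊢
        rwa [hF.rr, hF.rr] at this
      rw [← hF.bb ((sg r b)^[k] (sg r b z)), h1]
      simp only [sg]
      rw [hF.rr]
    · rw [hk] at h
      apply (ih (sg r b z)).2
      have h1 : b ((sg r b)^[k] (sg r b z)) = r (b z) := by
        have := congrArg r h
        simp only [sg] at this ⊢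
        rwa [hF.rr] at this
      rw [← hF.bb ((sg r b)^[k] (sg r b z)), h1]
      rfl

theorem sg_mem {c : W → W → Bool} {r b : W → W} (_hF : Fac c r b) {X : Set W} (hX : Clo r b X)
    {x : W} (hx : x ∈ X) (k : ℕ) : (sg r b)^[k] x ∈ X := by
  induction k with
  | zero => exact hx
  | succ k ih =>
    rw [iterate_succ_apply']
    exact (hX _ (hX _ ih).2).1

variable [Fintype W] {c : W → W → Bool} {r b : W → W}

/-- Every vertex of the cycle of `x` is `σ^k x` or `r (σ^k x)` with `k` below the period. -/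
theorem cls_form (hF : Fac c r b) (x z : W) (hz : z ∈ cls r b x) :
    ∃ k < minimalPeriod (sg r b) x, z = (sg r b)^[k] x ∨ z = r ((sg r b)^[k] x) := by
  have hmem := (sg_inj hF).mem_periodicPts x
  have hpos : 0 < minimalPeriod (sg r b) x := minimalPeriod_pos_of_mem_periodicPts hmem
  have hU : Clo r b {z | ∃ k : ℕ, z = (sg r b)^[k] x ∨ z = r ((sg r b)^[k] x)} := by
    rintro z ⟨k, h⟩
    rcases h with rfl | rfl
    · refine ⟨⟨k, Or.inr rfl⟩, ⟨k + 1, Or.inr ?_⟩⟩
      rw [iterate_succ_apply']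
      simp only [sg]
      rw [hF.rr]
    · refine ⟨⟨k, Or.inl (hF.rr _)⟩, ?_⟩
      cases k with
      | succ k =>
        refine ⟨k, Or.inl ?_⟩
        rw [iterate_succ_apply']
        simp only [sg]
        rw [hF.rr, hF.bb]
      | zero =>
        refine ⟨minimalPeriod (sg r b) x - 1, Or.inl ?_⟩
        have h1 : (sg r b) ((sg r b)^[minimalPeriod (sg r b) x - 1] x) = x := by
          rw [← iterate_succ_apply' (sg r b)]
          have : (minimalPeriod (sg r b) x - 1).succ = minimalPeriod (sg r b) x := by omega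
          rw [this, iterate_minimalPeriod]
        have h2 : b ((sg r b)^[minimalPeriod (sg r b) x - 1] x) = r x := by
          have := congrArg r h1
          simp only [sg] at this ⊢
          rwa [hF.rr] at this
        change b (r ((sg r b)^[0] x)) = _
        rw [iterate_zero, id, ← h2, hF.bb]
  obtain ⟨k, hk⟩ := cls_subset hU (show x ∈ _ from ⟨0, Or.inl rfl⟩) hz
  refine ⟨k % minimalPeriod (sg r b) x, Nat.mod_lt _ hpos, ?_⟩
  rw [iterate_mod_minimalPeriod_eq]
  exact hk

/-- Insertion of all red edges of the cycle `X` in blue edges of another cycle. -/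
theorem insert_abs (hc : ∀ x y, c x y = c y x) (hmin : IsMin c r b) {X : Set W}
    (hX : Clo r b X) {x0 y0 : W} (hx0 : x0 ∈ X) (f : W → W)
    (hfY : ∀ z ∈ X, f z ∈ cls r b y0) (hdisj : ∀ z ∈ cls r b y0, z ∉ X)
    (hinj : ∀ z ∈ X, ∀ z' ∈ X, f z = f z' → z = z')
    (hfr : ∀ z ∈ X, f (r z) = b (f z)) (hcf : ∀ z ∈ X, c z (f z) = false) : False := by
  classical
  have hF := hmin.1
  have hXc := hX.compl hF
  have hfX : ∀ z ∈ X, f z ∉ X := fun z hz => hdisj _ (hfY z hz)
  set b2 : W → W := fun z => if z ∈ X then f z else if h : ∃ x ∈ X, f x = z then h.choose else b z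
    with hb2
  have v1 : ∀ z ∈ X, b2 z = f z := by intro z hz; simp only [hb2, if_pos hz]
  have v2 : ∀ z ∈ X, b2 (f z) = z := by
    intro z hz
    have h : ∃ x ∈ X, f x = f z := ⟨z, hz, rfl⟩
    simp only [hb2, if_neg (hfX z hz), dif_pos h]
    exact hinj _ h.choose_spec.1 _ hz h.choose_spec.2
  have v3 : ∀ z, z ∉ X → (∀ x ∈ X, f x ≠ z) → b2 z = b z := by
    intro z hz h
    have h' : ¬ ∃ x ∈ X, f x = z := by push Not; exact h
    simp only [hb2, if_neg hz, dif_neg h']
  have hcases : ∀ z, z ∈ X ∨ (∃ x ∈ X, f x = z) ∨ (z ∉ X ∧ ∀ x ∈ X, f x ≠ z) := by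
    intro z
    by_cases h1 : z ∈ X
    · exact Or.inl h1
    by_cases h2 : ∃ x ∈ X, f x = z
    · exact Or.inr (Or.inl h2)
    · push Not at h2
      exact Or.inr (Or.inr ⟨h1, h2⟩)
  have hF' : Fac c r b2 := by
    refine ⟨hF.rr, ?_, hF.rne, ?_, hF.rc, ?_⟩
    · intro z
      rcases hcases z with h | ⟨x, hx, rfl⟩ | ⟨h, h'⟩
      · rw [v1 z h, v2 z h]
      · rw [v2 x hx, v1 x hx]
      · rw [v3 z h h', v3, hF.bb]
        · exact (hXc z h).2
        · intro x hx hfx
          apply h' (r x) (hX x hx).1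
          rw [hfr x hx, hfx, hF.bb]
    · intro z
      rcases hcases z with h | ⟨x, hx, rfl⟩ | ⟨h, h'⟩
      · rw [v1 z h]; intro h3; exact hfX z h (by rw [h3]; exact h)
      · rw [v2 x hx]; intro h3; exact hfX x hx (by rw [← h3]; exact hx)
      · rw [v3 z h h']; exact hF.bne z
    · intro z
      rcases hcases z with h | ⟨x, hx, rfl⟩ | ⟨h, h'⟩
      · rw [v1 z h]; exact hcf z h
      · rw [v2 x hx, hc]; exact hcf x hx
      · rw [v3 z h h']; exact hF.bc z
  apply hmin.2 _ _ hF'
  refine ⟨?_, ?_⟩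
  · intro S hS
    change Clo _ _ S at hS
    change Clo _ _ S
    have hri : ∀ z, z ∈ S ↔ r z ∈ S := hS.r_iff hF'
    have hbi : ∀ z, z ∈ S ↔ b2 z ∈ S := hS.b_iff hF'
    have hXS : ∀ z ∈ X, (z ∈ S ↔ f z ∈ S) := fun z hz => by rw [hbi z, v1 z hz]
    have hY : ∀ z, z ∉ X → (z ∈ S → b z ∈ S) := by
      intro z hz hzS
      rcases hcases z with h | ⟨x, hx, rfl⟩ | ⟨h, h'⟩
      · exact absurd h hz
      · rw [← hfr x hx, ← hXS _ (hX x hx).1, ← hri]
        exact (hXS x hx).2 hzS
      · have := (hS z hzS).2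
        rwa [v3 z h h'] at this
    have hYc : Clo r b (S ∩ cls r b y0) := by
      rintro z ⟨hz1, hz2⟩
      exact ⟨⟨(hri z).1 hz1, (clo_cls hF y0 z hz2).1⟩,
        ⟨hY z (hdisj z hz2) hz1, (clo_cls hF y0 z hz2).2⟩⟩
    have hYconn : ∀ z ∈ cls r b y0, ∀ z' ∈ cls r b y0, z ∈ S → z' ∈ S := by
      intro z hz z' hz' hzS
      have h1 : z' ∈ cls r b z := cls_trans (cls_symm hz) hz'
      exact ((h1 _ hYc).1 ⟨hzS, hz⟩).1
    intro z hz
    refine ⟨(hri z).1 hz, ?_⟩
    by_cases hzX : z ∈ X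
    · have hbX := (hX z hzX).2
      rw [hXS _ hbX]
      exact hYconn (f z) (hfY z hzX) _ (hfY _ hbX) ((hXS z hzX).1 hz)
    · exact hY z hzX hz
  · intro hsub
    have := hsub (show X ∈ {S | Clo r b S} from hX)
    have h3 := (this x0 hx0).2
    rw [v1 x0 hx0] at h3
    exact hfX x0 hx0 h3

end Pool.Agent.DDH
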