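import Mathlib
import Pool.Agent.DDH.Insert

/-!
Two alternating cycles of a minimal factor: one of them dominates the other.
-/

namespace Pool.Agent.DDH
open Finset Function

variable {W : Type*} {c : W → W → Bool} {r b : W → W}

theorem sg_mix (hF : Fac c r b) (j k : ℕ) (x : W) :
    (sg r b)^[j] x ≠ r ((sg r b)^[k] x) ∧ (sg r b)^[j] x ≠ b ((sg r b)^[k] x) := by
  rcases le_total k j with h | h
  · obtain ⟨i, rfl⟩ := Nat.exists_eq_add_of_le h
    rw [Nat.add_comm k i, iterate_add_apply]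
    exact sg_iter_ne hF i _
  · obtain ⟨i, rfl⟩ := Nat.exists_eq_add_of_le h
    rw [Nat.add_comm j i, iterate_add_apply]
    have h1 := sg_iter_ne hF i ((sg r b)^[j] x)
    refine ⟨fun h2 => h1.1 ?_, fun h2 => h1.2 ?_⟩
    · have := congrArg r h2
      rw [hF.rr] at this
      exact this.symm
    · have := congrArg b h2
      rw [hF.bb] at this
      exact this.symm

theorem not_mem_cls_symm {x y : W} (h : y ∉ cls r b x) : x ∉ cls r b y :=
  fun h' => h (cls_symm h')

theorem disj_cls {x y : W} (h : y ∉ cls r b x) : ∀ z ∈ cls r b y, z ∉ cls r b x :=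
  fun _ hz hz' => h (cls_trans hz' (cls_symm hz))

variable [Fintype W]

theorem insert_cyc (hc : ∀ x y, c x y = c y x) (hmin : IsMin c r b) {x0 y0 : W}
    (hxy : y0 ∉ cls r b x0) (hper : minimalPeriod (sg r b) x0 ≤ minimalPeriod (sg r b) y0)
    (h1 : c x0 y0 = false) (h2 : c (r x0) (b y0) = false) : False := by
  classical
  have hF := hmin.1
  set m := minimalPeriod (sg r b) x0 with hm
  have hX := clo_cls hF x0
  have hY := clo_cls hF y0
  have hXx := mem_cls_self r b x0
  have hYy := mem_cls_self r b y0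
  have hdisj := disj_cls hxy
  have injx : ∀ j < m, ∀ k < m, (sg r b)^[j] x0 = (sg r b)^[k] x0 → j = k :=
    fun j hj k hk h => iterate_injOn_Iio_minimalPeriod (Set.mem_Iio.2 hj) (Set.mem_Iio.2 hk) h
  have injy : ∀ j < m, ∀ k < m, (sg r b)^[j] y0 = (sg r b)^[k] y0 → j = k :=
    fun j hj k hk h => iterate_injOn_Iio_minimalPeriod (Set.mem_Iio.2 (lt_of_lt_of_le hj hper))
      (Set.mem_Iio.2 (lt_of_lt_of_le hk hper)) h
  set f : W → W := fun z => if h : ∃ k, k < m ∧ z = (sg r b)^[k] x0 then (sg r b)^[h.choose] y0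
    else if h : ∃ k, k < m ∧ z = r ((sg r b)^[k] x0) then b ((sg r b)^[h.choose] y0) else z with hf
  have v1 : ∀ k < m, f ((sg r b)^[k] x0) = (sg r b)^[k] y0 := by
    intro k hk
    have h : ∃ j, j < m ∧ (sg r b)^[k] x0 = (sg r b)^[j] x0 := ⟨k, hk, rfl⟩
    simp only [hf, dif_pos h]
    rw [← injx k hk _ h.choose_spec.1 h.choose_spec.2]
  have v2 : ∀ k < m, f (r ((sg r b)^[k] x0)) = b ((sg r b)^[k] y0) := by
    intro k hk
    have h' : ¬ ∃ j, j < m ∧ r ((sg r b)^[k] x0) = (sg r b)^[j] x0 := by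
      rintro ⟨j, _, hj⟩
      exact (sg_mix hF j k x0).1 hj.symm
    have h : ∃ j, j < m ∧ r ((sg r b)^[k] x0) = r ((sg r b)^[j] x0) := ⟨k, hk, rfl⟩
    simp only [hf, dif_neg h', dif_pos h]
    have h3 := h.choose_spec.2
    have h4 : (sg r b)^[k] x0 = (sg r b)^[h.choose] x0 := by
      have := congrArg r h3
      rwa [hF.rr, hF.rr] at this
    rw [← injx k hk _ h.choose_spec.1 h4]
  -- colours
  have c1 : ∀ k, c ((sg r b)^[k] x0) ((sg r b)^[k] y0) = false := by
    intro k
    induction k with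
    | zero => exact h1
    | succ k ih =>
      rw [iterate_succ_apply', iterate_succ_apply']
      have hxk := sg_mem hF hX hXx k
      have hyk : (sg r b)^[k] y0 ∉ cls r b x0 := hdisj _ (sg_mem hF hY hYy k)
      have e1 := flip_blue hc hmin hX hxk hyk
      have e2 := flip_red hc hmin hX (hX _ hxk).2 ((hX.compl hF) _ hyk).2
      simp only [sg] at *
      rw [e2, e1, ih]; rfl
  have c2 : ∀ k, c (r ((sg r b)^[k] x0)) (b ((sg r b)^[k] y0)) = false := by
    intro k
    induction k with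
    | zero => exact h2
    | succ k ih =>
      rw [iterate_succ_apply', iterate_succ_apply']
      have hxk := sg_mem hF hX hXx k
      have hyk : (sg r b)^[k] y0 ∉ cls r b x0 := hdisj _ (sg_mem hF hY hYy k)
      have hXc := hX.compl hF
      have hrx := (hX _ hxk).1
      have hby := (hXc _ hyk).2
      have e1 := flip_red hc hmin hX hrx hby
      have e2 := flip_blue hc hmin hX (hX _ hrx).1 (hXc _ hby).1
      rw [hF.rr] at e1 e2
      simp only [sg] at *
      rw [hF.rr, e2, e1, ih]; rfl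
  refine insert_abs hc hmin hX hXx f ?_ hdisj ?_ ?_ ?_ (y0 := y0)
  · intro z hz
    obtain ⟨k, hk, h | h⟩ := cls_form hF x0 z hz
    · rw [h, v1 k hk]; exact sg_mem hF hY hYy k
    · rw [h, v2 k hk]; exact (hY _ (sg_mem hF hY hYy k)).2
  · intro z hz z' hz' hff
    obtain ⟨k, hk, h | h⟩ := cls_form hF x0 z hz
    · obtain ⟨k', hk', h' | h'⟩ := cls_form hF x0 z' hz'
      · rw [h, h', v1 k hk, v1 k' hk'] at hff
        rw [h, h', injy k hk k' hk' hff]
      · rw [h, h', v1 k hk, v2 k' hk'] at hff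
        exact absurd hff (sg_mix hF k k' y0).2
    · obtain ⟨k', hk', h' | h'⟩ := cls_form hF x0 z' hz'
      · rw [h, h', v2 k hk, v1 k' hk'] at hff
        exact absurd hff.symm (sg_mix hF k' k y0).2
      · rw [h, h', v2 k hk, v2 k' hk'] at hff
        have : (sg r b)^[k] y0 = (sg r b)^[k'] y0 := by
          have := congrArg b hff
          rwa [hF.bb, hF.bb] at this
        rw [h, h', injy k hk k' hk' this]
  · intro z hz
    obtain ⟨k, hk, h | h⟩ := cls_form hF x0 z hz
    · rw [h, v1 k hk, v2 k hk]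
    · rw [h, v2 k hk, hF.rr, v1 k hk, hF.bb]
  · intro z hz
    obtain ⟨k, hk, h | h⟩ := cls_form hF x0 z hz
    · rw [h, v1 k hk]; exact c1 k
    · rw [h, v2 k hk]; exact c2 k

theorem per_r (hF : Fac c r b) (z : W) :
    minimalPeriod (sg r b) (r z) = minimalPeriod (sg r b) z := by
  have key : ∀ k : ℕ, ∀ z : W, (sg r b)^[k] (r ((sg r b)^[k] z)) = r z := by
    intro k
    induction k with
    | zero => intro z; rfl
    | succ k ih =>
      intro z
      have e1 : (sg r b)^[k + 1] z = sg r b ((sg r b)^[k] z) := iterate_succ_apply' _ _ _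
      rw [e1, iterate_succ_apply]
      have : sg r b (r (sg r b ((sg r b)^[k] z))) = r ((sg r b)^[k] z) := by
        simp only [sg]
        rw [hF.rr, hF.bb]
      rw [this, ih]
  have h1 : ∀ z : W, ∀ k, IsPeriodicPt (sg r b) k z → IsPeriodicPt (sg r b) k (r z) := by
    intro z k h
    have := key k z
    rw [IsPeriodicPt, IsFixedPt] at h ⊢
    rwa [h] at this
  rw [minimalPeriod_eq_minimalPeriod_iff]
  intro k
  refine ⟨fun h => ?_, fun h => h1 z k h⟩
  have := h1 _ k h
  rwa [hF.rr] at this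

theorem per_b (hF : Fac c r b) (z : W) :
    minimalPeriod (sg r b) (b z) = minimalPeriod (sg r b) z := by
  have h1 : b z = r (sg r b z) := by simp only [sg]; rw [hF.rr]
  rw [h1, per_r hF, minimalPeriod_apply ((sg_inj hF).mem_periodicPts z)]

theorem per_cls (hF : Fac c r b) {x z : W} (hz : z ∈ cls r b x) :
    minimalPeriod (sg r b) z = minimalPeriod (sg r b) x := by
  have hS : Clo r b {z | minimalPeriod (sg r b) z = minimalPeriod (sg r b) x} := by
    intro z hz
    exact ⟨(per_r hF z).trans hz, (per_b hF z).trans hz⟩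
  exact cls_subset hS rfl hz

/-- The colour is also reversed by a red step on one side and a blue step on the other. -/
theorem flip_mixed (hc : ∀ x y, c x y = c y x) (hmin : IsMin c r b) {x0 y0 : W}
    (hxy : y0 ∉ cls r b x0) (hper : minimalPeriod (sg r b) x0 ≤ minimalPeriod (sg r b) y0)
    {x y : W} (hx : x ∈ cls r b x0) (hy : y ∈ cls r b y0) : c (r x) (b y) = !(c x y) := by
  classical
  have hF := hmin.1
  have hX := clo_cls hF x0
  have hY := clo_cls hF y0
  have hdisj := disj_cls hxy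
  set P : Finset (W × W) := univ.filter (fun p => p.1 ∈ cls r b x0 ∧ p.2 ∈ cls r b y0) with hP
  set T := P.filter (fun p => c p.1 p.2 = true) with hT
  set F := P.filter (fun p => ¬ (c p.1 p.2 = true)) with hFF
  have hTF : T.card ≤ F.card := by
    apply card_le_card_of_injOn (Prod.map r r)
    · intro p hp
      simp only [hT, hFF, hP, coe_filter, mem_filter, mem_univ, true_and, Set.mem_ofPred_eq,
        Prod.map_fst, Prod.map_snd] at hp ⊢
      refine ⟨⟨(hX _ hp.1.1).1, (hY _ hp.1.2).1⟩, ?_⟩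
      rw [flip_red hc hmin hX hp.1.1 (hdisj _ hp.1.2), hp.2]; simp
    · intro p _ q _ hpq
      have h1 := congrArg Prod.fst hpq
      have h2 := congrArg Prod.snd hpq
      simp only [Prod.map_fst, Prod.map_snd] at h1 h2
      ext
      · rw [← hF.rr p.1, h1, hF.rr]
      · rw [← hF.rr p.2, h2, hF.rr]
  have him : F.image (Prod.map r b) ⊆ T := by
    intro q hq
    rw [mem_image] at hq
    obtain ⟨p, hp, rfl⟩ := hq
    simp only [hT, hFF, hP, mem_filter, mem_univ, true_and, Prod.map_fst, Prod.map_snd] at hp ⊢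
    refine ⟨⟨(hX _ hp.1.1).1, (hY _ hp.1.2).2⟩, ?_⟩
    by_contra h
    have hne : p.2 ∉ cls r b p.1 := fun h3 => hdisj _ hp.1.2 (cls_trans hp.1.1 h3)
    refine insert_cyc hc hmin hne ?_ (by simpa using hp.2) (by simpa using h)
    rw [per_cls hF hp.1.1, per_cls hF hp.1.2]
    exact hper
  have hinj : (F.image (Prod.map r b)).card = F.card := by
    apply card_image_of_injective
    intro p q hpq
    have h1 := congrArg Prod.fst hpq
    have h2 := congrArg Prod.snd hpq
    simp only [Prod.map_fst, Prod.map_snd] at h1 h2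
    ext
    · rw [← hF.rr p.1, h1, hF.rr]
    · rw [← hF.bb p.2, h2, hF.bb]
  have heq : F.image (Prod.map r b) = T := eq_of_subset_of_card_le him (by rw [hinj]; exact hTF)
  have hxyP : (x, y) ∈ P := by simp [hP, hx, hy]
  by_cases hcxy : c x y = true
  · have hm : (x, y) ∈ T := by rw [hT, mem_filter]; exact ⟨hxyP, hcxy⟩
    rw [← heq, mem_image] at hm
    obtain ⟨p, hp, hpe⟩ := hm
    have h1 := congrArg Prod.fst hpe
    have h2 := congrArg Prod.snd hpe
    simp only [Prod.map_fst, Prod.map_snd] at h1 h2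
    simp only [hFF, mem_filter] at hp
    have h4 : c (r p.1) (b p.2) = true := by rw [h1, h2]; exact hcxy
    rw [← h1, ← h2, hF.rr, hF.bb, h4]
    simpa using hp.2
  · have hm : (x, y) ∈ F := by rw [hFF, mem_filter]; exact ⟨hxyP, hcxy⟩
    have h3 := him (mem_image_of_mem (Prod.map r b) hm)
    simp only [hT, mem_filter, Prod.map_fst, Prod.map_snd] at h3
    rw [h3.2]
    simpa using hcxy

/-- Red and blue steps have the same effect on the colours between two cycles. -/
theorem same_step (hc : ∀ x y, c x y = c y x) (hmin : IsMin c r b) {x0 y0 : W}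
    (hxy : y0 ∉ cls r b x0) {x y : W} (hx : x ∈ cls r b x0) (hy : y ∈ cls r b y0) :
    c x (b y) = c x (r y) ∧ c (b x) y = c (r x) y := by
  have aux : ∀ x0 y0 : W, y0 ∉ cls r b x0 →
      minimalPeriod (sg r b) x0 ≤ minimalPeriod (sg r b) y0 → ∀ x ∈ cls r b x0, ∀ y ∈ cls r b y0,
      c x (b y) = c x (r y) ∧ c (b x) y = c (r x) y := by
    intro x0 y0 hxy hper x hx y hy
    have hF := hmin.1
    have hX := clo_cls hF x0
    have hY := clo_cls hF y0
    have hdisj := disj_cls hxy
    constructor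
    · have e1 := flip_mixed hc hmin hxy hper (hX _ hx).1 hy
      have e2 := flip_red hc hmin hX (hX _ hx).1 (hdisj _ hy)
      rw [hF.rr] at e1 e2
      rw [e1, e2]
    · have e1 := flip_mixed hc hmin hxy hper hx (hY _ hy).2
      have e2 := flip_blue hc hmin hX hx (hdisj _ (hY _ hy).2)
      rw [hF.bb] at e1 e2
      rw [e1, e2]
  rcases le_total (minimalPeriod (sg r b) x0) (minimalPeriod (sg r b) y0) with h | h
  · exact aux x0 y0 hxy h x hx y hy
  · have := aux y0 x0 (not_mem_cls_symm hxy) h y hy x hx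
    refine ⟨?_, ?_⟩
    · rw [hc x (b y), hc x (r y)]; exact this.2
    · rw [hc (b x) y, hc (r x) y]; exact this.1

/-- Of two cycles, one dominates the other. -/
theorem dom_or (hc : ∀ x y, c x y = c y x) (hmin : IsMin c r b) {x0 y0 : W}
    (hxy : y0 ∉ cls r b x0) :
    (∀ x ∈ cls r b x0, ∀ y ∈ cls r b y0, c x (r y) = c x y) ∨
    (∀ x ∈ cls r b x0, ∀ y ∈ cls r b y0, c (r x) y = c x y) := by
  have hF := hmin.1
  have hX := clo_cls hF x0
  have hY := clo_cls hF y0
  have hXx := mem_cls_self r b x0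
  have hYy := mem_cls_self r b y0
  have hdisj := disj_cls hxy
  have hfr : ∀ x ∈ cls r b x0, ∀ y ∈ cls r b y0, c (r x) (r y) = !(c x y) :=
    fun x hx y hy => flip_red hc hmin hX hx (hdisj _ hy)
  have i1 : ∀ x ∈ cls r b x0, ∀ y ∈ cls r b y0, (c (r x) (r y) = c (r x) y ↔ c x (r y) = c x y) := by
    intro x hx y hy
    have e1 := hfr x hx y hy
    have e2 := hfr x hx (r y) (hY _ hy).1
    rw [hF.rr] at e2
    rw [e1, e2]
    cases c x y <;> cases c x (r y) <;> simp
  have i2 : ∀ x ∈ cls r b x0, ∀ y ∈ cls r b y0, (c (b x) (r y) = c (b x) y ↔ c x (r y) = c x y) := by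
    intro x hx y hy
    rw [(same_step hc hmin hxy hx (hY _ hy).1).2, (same_step hc hmin hxy hx hy).2]
    exact i1 x hx y hy
  have i3 : ∀ x ∈ cls r b x0, ∀ y ∈ cls r b y0, (c x (r (r y)) = c x (r y) ↔ c x (r y) = c x y) := by
    intro x hx y hy
    rw [hF.rr]
    exact eq_comm
  have i4 : ∀ x ∈ cls r b x0, ∀ y ∈ cls r b y0, (c x (r (b y)) = c x (b y) ↔ c x (r y) = c x y) := by
    intro x hx y hy
    rw [← (same_step hc hmin hxy hx (hY _ hy).2).1, (same_step hc hmin hxy hx hy).1, hF.bb]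
    exact eq_comm
  by_cases h0 : c x0 (r y0) = c x0 y0
  · left
    have hS1 : Clo r b {x | x ∈ cls r b x0 ∧ c x (r y0) = c x y0} := by
      rintro x ⟨h1, h2⟩
      exact ⟨⟨(hX _ h1).1, (i1 x h1 y0 hYy).2 h2⟩, ⟨(hX _ h1).2, (i2 x h1 y0 hYy).2 h2⟩⟩
    intro x hx
    have hx1 : c x (r y0) = c x y0 := (cls_subset hS1 ⟨hXx, h0⟩ hx).2
    have hS2 : Clo r b {y | y ∈ cls r b y0 ∧ c x (r y) = c x y} := by
      rintro y ⟨h1, h2⟩
      exact ⟨⟨(hY _ h1).1, (i3 x hx y h1).2 h2⟩, ⟨(hY _ h1).2, (i4 x hx y h1).2 h2⟩⟩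
    intro y hy
    exact (cls_subset hS2 ⟨hYy, hx1⟩ hy).2
  · right
    have hS1 : Clo r b {x | x ∈ cls r b x0 ∧ ¬ c x (r y0) = c x y0} := by
      rintro x ⟨h1, h2⟩
      exact ⟨⟨(hX _ h1).1, fun h => h2 ((i1 x h1 y0 hYy).1 h)⟩,
        ⟨(hX _ h1).2, fun h => h2 ((i2 x h1 y0 hYy).1 h)⟩⟩
    intro x hx
    have hx1 : ¬ c x (r y0) = c x y0 := (cls_subset hS1 ⟨hXx, h0⟩ hx).2
    have hS2 : Clo r b {y | y ∈ cls r b y0 ∧ ¬ c x (r y) = c x y} := by
      rintro y ⟨h1, h2⟩
      exact ⟨⟨(hY _ h1).1, fun h => h2 ((i3 x hx y h1).1 h)⟩,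
        ⟨(hY _ h1).2, fun h => h2 ((i4 x hx y h1).1 h)⟩⟩
    intro y hy
    have h3 : ¬ c x (r y) = c x y := (cls_subset hS2 ⟨hYy, hx1⟩ hy).2
    have e2 := hfr x hx (r y) (hY _ hy).1
    rw [hF.rr] at e2
    rw [e2]
    revert h3
    cases c x y <;> cases c x (r y) <;> simp

end Pool.Agent.DDH
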