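import Mathlib

/-!
A counting lemma used to find perfect matchings with Tutte's theorem.
-/

namespace Pool.Agent.DDH

open Finset

theorem no_violator {W : Type*} [Fintype W] [DecidableEq W] (A : W → W → Prop)
    [DecidableRel A] (hirr : ∀ z, ¬ A z z) (hsymm : ∀ x y, A x y → A y x) (n : ℕ) (hn : 2 ≤ n)
    (hev : Even n) (hW : Fintype.card W = 2 * n) (w : W)
    (hlo : ∀ z, z ≠ w → n - 1 ≤ #{y | A z y}) (hhi : ∀ z, z ≠ w → #{y | A z y} ≤ n)
    (hw1 : 1 ≤ #{y | A w y}) (hw2 : #{y | A w y} ≤ 2 * n - 2)
    {ι : Type*} [DecidableEq ι] (S : Finset W) (comp : W → ι)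
    (hcomp : ∀ z z', z ∉ S → z' ∉ S → A z z' → comp z = comp z') (Q : Finset ι)
    (hQodd : ∀ i ∈ Q, Odd #{z | z ∉ S ∧ comp z = i}) (hQ : S.card + 2 ≤ Q.card) : False := by
  classical
  set F : ι → ℕ := fun i => #{z | z ∉ S ∧ comp z = i} with hF
  set s := S.card with hs
  have hcompl : #{z | z ∉ S} = 2 * n - s := by
    have : (univ.filter (fun z => z ∉ S)) = Sᶜ := by ext z; simp
    rw [this, card_compl, hW]
  -- sum over any finset of indices
  have hsum : ∀ R : Finset ι, ∑ i ∈ R, F i ≤ 2 * n - s := by
    intro R
    rw [← hcompl]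
    have : ∑ i ∈ R, F i = #{z | z ∉ S ∧ comp z ∈ R} := by
      rw [hF]
      rw [card_eq_sum_card_fiberwise (f := comp) (t := R) (s := univ.filter (fun z => z ∉ S ∧ comp z ∈ R))]
      · apply sum_congr rfl
        intro i hi
        apply congrArg card
        apply Finset.ext
        intro z
        simp only [mem_filter, mem_univ, true_and]
        constructor
        · rintro ⟨h1, h2⟩
          exact ⟨⟨h1, h2 ▸ hi⟩, h2⟩
        · rintro ⟨⟨h1, _⟩, h2⟩
          exact ⟨h1, h2⟩
      · intro z hz
        simp only [coe_filter, mem_univ, true_and, Set.mem_ofPred_eq] at hz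
        exact hz.2
    rw [this]
    apply card_le_card
    intro z hz
    simp only [mem_filter, mem_univ, true_and] at hz ⊢
    exact hz.1
  have hsle : s ≤ 2 * n := by
    have := S.card_le_univ
    rw [hW] at this
    exact this
  -- degree bound
  have hdeg : ∀ z, z ∉ S → ∀ T : Finset W, T ⊆ S → (∀ y ∈ S, A z y → y ∈ T) →
      #{y | A z y} + 1 ≤ T.card + F (comp z) := by
    intro z hz T hT hzT
    have h1 : insert z (univ.filter (fun y => A z y)) ⊆ T ∪ univ.filter (fun y => y ∉ S ∧ comp y = comp z) := by
      intro y hy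
      simp only [mem_insert, mem_filter, mem_univ, true_and] at hy
      simp only [mem_union, mem_filter, mem_univ, true_and]
      rcases hy with rfl | hy
      · right; exact ⟨hz, rfl⟩
      · by_cases hyS : y ∈ S
        · left; exact hzT y hyS hy
        · right; exact ⟨hyS, (hcomp z y hz hyS hy).symm⟩
    have h2 := card_le_card h1
    rw [card_insert_of_notMem (by simp [hirr])] at h2
    exact h2.trans (card_union_le _ _)
  have hFz : ∀ z, z ∉ S → z ≠ w → n ≤ s + F (comp z) := by
    intro z hz hzw
    have h1 := hdeg z hz S (Subset.refl _) (fun y hy _ => hy)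
    have h2 := hlo z hzw
    omega
  have hFpos : ∀ i ∈ Q, 1 ≤ F i := fun i hi => (hQodd i hi).pos
  -- each index of `Q` is either the singleton of `w` or large
  have hFQ : ∀ i ∈ Q, n ≤ s + F i ∨ (w ∉ S ∧ comp w = i ∧ ∀ z, z ∉ S → comp z = i → z = w) := by
    intro i hi
    by_cases h : ∃ z, z ∉ S ∧ comp z = i ∧ z ≠ w
    · obtain ⟨z, h1, h2, h3⟩ := h
      left
      have := hFz z h1 h3
      rwa [h2] at this
    · right
      push Not at h
      have hp := hFpos i hi
      obtain ⟨z, hz⟩ := card_pos.1 (Nat.lt_of_lt_of_le Nat.zero_lt_one hp)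
      simp only [mem_filter, mem_univ, true_and] at hz
      have hzw := h z hz.1 hz.2
      subst hzw
      exact ⟨hz.1, hz.2, h⟩
  have hcardQ : Q.card ≤ 2 * n - s := by
    have h1 := hsum Q
    have h2 : Q.card • 1 ≤ ∑ i ∈ Q, F i := card_nsmul_le_sum Q F 1 hFpos
    simp only [smul_eq_mul, mul_one] at h2
    omega
  have hsn : s + 1 ≤ n := by omega
  obtain ⟨t, ht⟩ : ∃ t, n = s + 1 + t := ⟨n - (s + 1), by omega⟩
  -- the key lower bound for sums
  have hlow : ∀ R : Finset ι, R ⊆ Q → (∀ i ∈ R, n ≤ s + F i) → R.card * (t + 1) ≤ ∑ i ∈ R, F i := by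
    intro R hR h
    have := card_nsmul_le_sum R F (t + 1) (fun i hi => by have := h i hi; omega)
    simpa using this
  -- a vertex outside `S` missing a vertex of `S`
  have hmiss : ∀ s0 ∈ S, ∀ z, z ∉ S → z ≠ w → ¬ A z s0 → t + 2 ≤ F (comp z) := by
    intro s0 hs0 z hz hzw hA
    have h1 := hdeg z hz (S.erase s0) (erase_subset _ _) (fun y hy hAy => by
      rw [mem_erase]
      refine ⟨?_, hy⟩
      rintro rfl
      exact hA hAy)
    rw [card_erase_of_mem hs0] at h1
    have h2 := hlo z hzw
    have h3 : 1 ≤ s := card_pos.2 ⟨s0, hs0⟩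
    omega
  by_cases hex : ∃ i0 ∈ Q, (w ∉ S ∧ comp w = i0 ∧ ∀ z, z ∉ S → comp z = i0 → z = w)
  · obtain ⟨i0, hi0, hwS, hwi, hall⟩ := hex
    have hothers : ∀ i ∈ Q, i ≠ i0 → n ≤ s + F i := by
      intro i hi hne
      rcases hFQ i hi with h | h
      · exact h
      · exact absurd (h.2.1.symm.trans hwi) hne
    -- neighbours of `w` are in `S`
    obtain ⟨s0, hs0⟩ := card_pos.1 (Nat.lt_of_lt_of_le Nat.zero_lt_one hw1)
    simp only [mem_filter, mem_univ, true_and] at hs0
    have hs0w : s0 ≠ w := by
      rintro rfl
      exact hirr _ hs0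
    have hs0S : s0 ∈ S := by
      by_contra h
      exact hs0w (hall s0 h ((hcomp w s0 hwS h hs0).symm.trans hwi))
    have hs1 : 1 ≤ s := card_pos.2 ⟨s0, hs0S⟩
    -- some vertex outside `S` misses `s0`
    have hz : ∃ z, z ∉ S ∧ z ≠ w ∧ ¬ A z s0 := by
      by_contra hcon
      push Not at hcon
      have h1 : univ.filter (fun z => z ∉ S) ⊆ univ.filter (fun y => A s0 y) := by
        intro z hz
        simp only [mem_filter, mem_univ, true_and] at hz ⊢
        by_cases hzw : z = w
        · rw [hzw]; exact hsymm _ _ hs0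
        · exact hsymm _ _ (hcon z hz hzw)
      have h2 := card_le_card h1
      rw [hcompl] at h2
      have h3 := hhi s0 hs0w
      omega
    obtain ⟨z, hzS, hzw, hzA⟩ := hz
    have hFz2 := hmiss s0 hs0S z hzS hzw hzA
    have hne : comp z ≠ i0 := fun h => hzw (hall z hzS h)
    set R := (Q.erase i0).erase (comp z) with hR
    have hRc : s ≤ R.card := by
      have h1 := card_erase_of_mem hi0
      have h2 := pred_card_le_card_erase (s := Q.erase i0) (a := comp z)
      rw [← hR] at h2
      omega
    have hRQ : R ⊆ Q := (erase_subset _ _).trans (erase_subset _ _)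
    have hR1 := hlow R hRQ (fun i hi => hothers i (hRQ hi) (by
      have := mem_of_mem_erase hi
      exact ne_of_mem_erase this))
    have hRi : i0 ∉ insert (comp z) R := by
      simp only [mem_insert, not_or]
      refine ⟨fun h => hne h.symm, fun h => ?_⟩
      exact ne_of_mem_erase (mem_of_mem_erase h) rfl
    have hRz : comp z ∉ R := fun h => ne_of_mem_erase h rfl
    have hsum2 := hsum (insert i0 (insert (comp z) R))
    rw [sum_insert hRi, sum_insert hRz] at hsum2
    have hi1 := hFpos i0 hi0
    have hmul : s * (t + 1) ≤ R.card * (t + 1) := Nat.mul_le_mul_right _ hRc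
    have : 1 + (t + 2) + s * (t + 1) ≤ 2 * n - s := by omega
    have h4 : s * (t + 1) = s * t + s := by ring
    have h5 : t ≤ s * t := Nat.le_mul_of_pos_left t hs1
    omega
  · have hothers : ∀ i ∈ Q, n ≤ s + F i := by
      intro i hi
      rcases hFQ i hi with h | h
      · exact h
      · exact absurd ⟨i, hi, h⟩ hex
    have hQs := hlow Q (Subset.refl _) hothers
    have hQ2 := hsum Q
    have hmul : (s + 2) * (t + 1) ≤ Q.card * (t + 1) := Nat.mul_le_mul_right _ hQ
    have h4 : (s + 2) * (t + 1) = s * t + s + 2 * t + 2 := by ring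
    have hst : s * t = 0 := by omega
    rcases Nat.mul_eq_zero.1 hst with hs0 | ht0
    · -- `S` empty: two components of even size
      have h2 : 1 < Q.card := by omega
      obtain ⟨i1, hi1, i2, hi2, hne⟩ := one_lt_card.1 h2
      have h3 := hsum {i1, i2}
      rw [sum_pair hne] at h3
      have h5 := hothers i1 hi1
      have h6 := hothers i2 hi2
      have h7 : F i1 = n := by omega
      have h8 := hQodd i1 hi1
      change Odd (F i1) at h8
      rw [h7] at h8
      exact (Nat.not_odd_iff_even.2 hev) h8
    · -- extremal case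
      subst ht0
      have hs1 : 1 ≤ s := by omega
      have hwS : w ∈ S := by
        by_contra hwS
        by_cases hwQ : comp w ∈ Q
        · -- fibre of `w` has size one
          have hR1 := hlow (Q.erase (comp w)) (erase_subset _ _) (fun i hi => hothers i (mem_of_mem_erase hi))
          have hsum2 := sum_erase_add Q F hwQ
          have hc := card_erase_of_mem hwQ
          have hFw : F (comp w) ≤ 1 := by omega
          apply hex
          refine ⟨comp w, hwQ, hwS, rfl, ?_⟩
          intro z hz hcz
          by_contra hzw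
          have : ({z, w} : Finset W) ⊆ univ.filter (fun y => y ∉ S ∧ comp y = comp w) := by
            intro y hy
            simp only [mem_insert, mem_singleton] at hy
            simp only [mem_filter, mem_univ, true_and]
            rcases hy with rfl | rfl
            · exact ⟨hz, hcz⟩
            · exact ⟨hwS, rfl⟩
          have h9 := card_le_card this
          rw [card_pair hzw] at h9
          change 2 ≤ F (comp w) at h9
          omega
        · have hsum2 := hsum (insert (comp w) Q)
          rw [sum_insert hwQ] at hsum2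
          have : 1 ≤ F (comp w) := card_pos.2 ⟨w, by simp [hwS]⟩
          omega
      -- a vertex of `S` of degree at most `n`
      have hs0 : ∃ s0 ∈ S, #{y | A s0 y} ≤ n := by
        by_cases h1 : ∃ s0 ∈ S, s0 ≠ w
        · obtain ⟨s0, h2, h3⟩ := h1
          exact ⟨s0, h2, hhi s0 h3⟩
        · push Not at h1
          have : S ⊆ {w} := fun y hy => by simp [h1 y hy]
          have h2 := card_le_card this
          rw [card_singleton] at h2
          refine ⟨w, hwS, ?_⟩
          omega
      obtain ⟨s0, hs0S, hs0d⟩ := hs0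
      have hz : ∃ z, z ∉ S ∧ ¬ A z s0 := by
        by_contra hcon
        push Not at hcon
        have h1 : univ.filter (fun z => z ∉ S) ⊆ univ.filter (fun y => A s0 y) := by
          intro z hz
          simp only [mem_filter, mem_univ, true_and] at hz ⊢
          exact hsymm _ _ (hcon z hz)
        have h2 := card_le_card h1
        rw [hcompl] at h2
        omega
      obtain ⟨z, hzS, hzA⟩ := hz
      have hzw : z ≠ w := fun h => hzS (h ▸ hwS)
      have hFz2 := hmiss s0 hs0S z hzS hzw hzA
      set R := Q.erase (comp z) with hR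
      have hRc : s + 1 ≤ R.card := by
        have h2 := pred_card_le_card_erase (s := Q) (a := comp z)
        rw [← hR] at h2
        omega
      have hR1 := hlow R (erase_subset _ _) (fun i hi => hothers i (mem_of_mem_erase hi))
      have hRz : comp z ∉ R := fun h => ne_of_mem_erase h rfl
      have hsum2 := hsum (insert (comp z) R)
      rw [sum_insert hRz] at hsum2
      omega

end Pool.Agent.DDH
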