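import Mathlib
import Pool.Agent.DDH.NoViolator

namespace Pool.Agent.DDH
open Finset

theorem exists_matching {W : Type*} [Fintype W] [DecidableEq W] (H : SimpleGraph W)
    [DecidableRel H.Adj] (n : ℕ) (hn : 2 ≤ n)
    (hev : Even n) (hW : Fintype.card W = 2 * n) (w : W)
    (hlo : ∀ z, z ≠ w → n - 1 ≤ #{y | H.Adj z y}) (hhi : ∀ z, z ≠ w → #{y | H.Adj z y} ≤ n)
    (hw1 : 1 ≤ #{y | H.Adj w y}) (hw2 : #{y | H.Adj w y} ≤ 2 * n - 2) :
    ∃ f : W → W, (∀ x, f (f x) = x) ∧ ∀ x, H.Adj x (f x) := by
  classical
  have hM : ∃ M : H.Subgraph, M.IsPerfectMatching := by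
    rw [SimpleGraph.tutte]
    intro u hu
    unfold SimpleGraph.IsTutteViolator at hu
    set G' := (⊤ : H.Subgraph).deleteVerts u with hG'
    have hverts : G'.verts = uᶜ := by
      rw [hG', SimpleGraph.Subgraph.deleteVerts_verts]
      ext z
      simp
    set K := G'.coe with hK
    let S : Finset W := u.toFinset
    let comp : W → Option K.ConnectedComponent := fun z =>
      if h : z ∈ G'.verts then some (K.connectedComponentMk ⟨z, h⟩) else none
    have hfin : K.oddComponents.Finite := Set.toFinite _
    let Q : Finset (Option K.ConnectedComponent) := hfin.toFinset.map Function.Embedding.some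
    have hQc : Q.card = K.oddComponents.ncard := by
      simp only [Q, card_map]
      rw [Set.ncard_eq_toFinset_card _ hfin]
    have hSc : S.card = u.ncard := by
      simp only [S]
      rw [Set.ncard_eq_toFinset_card' u]
    have hmem : ∀ z, z ∉ S ↔ z ∈ G'.verts := by
      intro z
      rw [hverts]
      simp [S]
    have hpar : Odd K.oddComponents.ncard ↔ Odd (Nat.card G'.verts) := SimpleGraph.odd_ncard_oddComponents K
    have hcardv : Nat.card G'.verts = 2 * n - u.ncard := by
      rw [hverts, Nat.card_coe_set_eq, Set.ncard_compl, Nat.card_eq_fintype_card, hW]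
    have hule : u.ncard ≤ 2 * n := by
      rw [← hSc, ← hW]
      exact S.card_le_univ
    have hQ2 : S.card + 2 ≤ Q.card := by
      rw [hSc, hQc]
      rw [hcardv] at hpar
      rcases Nat.even_or_odd u.ncard with he | ho
      · have h1 : ¬ Odd (2 * n - u.ncard) := by
          rw [Nat.not_odd_iff_even, Nat.even_sub hule]
          simp [he]
        rw [← hpar, Nat.not_odd_iff_even] at h1
        obtain ⟨a, ha⟩ := h1
        obtain ⟨b, hb⟩ := he
        omega
      · have h1 : Odd (2 * n - u.ncard) := by
          rw [Nat.odd_sub hule]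
          exact ⟨fun h => absurd h (Nat.not_odd_iff_even.2 (even_two_mul n)),
            fun h => absurd ho (Nat.not_odd_iff_even.2 h)⟩
        rw [← hpar] at h1
        obtain ⟨a, ha⟩ := h1
        obtain ⟨b, hb⟩ := ho
        omega
    refine no_violator H.Adj (fun z => H.irrefl) (fun x y h => h.symm) n hn hev hW w hlo hhi hw1 hw2 S comp
      ?_ Q ?_ hQ2
    · intro z z' hz hz' hA
      have h1 := (hmem z).1 hz
      have h2 := (hmem z').1 hz'
      simp only [comp, h1, h2, dif_pos]
      congr 1
      rw [SimpleGraph.ConnectedComponent.eq]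
      apply SimpleGraph.Adj.reachable
      rw [hK, SimpleGraph.Subgraph.coe_adj]
      have h3 : z ∉ u := by rw [hverts] at h1; exact h1
      have h4 : z' ∉ u := by rw [hverts] at h2; exact h2
      have h5 : ((⊤ : H.Subgraph).deleteVerts u).Adj z z' := by
        rw [SimpleGraph.Subgraph.deleteVerts_adj]
        exact ⟨by simp, h3, by simp, h4, by simpa using hA⟩
      exact h5
    · intro i hi
      simp only [Q, mem_map, Set.Finite.mem_toFinset] at hi
      obtain ⟨C, hC, rfl⟩ := hi
      have hC' : Odd C.supp.ncard := hC
      have hEq : #{z | z ∉ S ∧ comp z = Function.Embedding.some C} = C.supp.ncard := by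
        rw [← Set.ncard_image_of_injective C.supp Subtype.val_injective]
        rw [Set.ncard_eq_toFinset_card']
        congr 1
        ext z
        simp only [mem_filter, mem_univ, true_and, Set.mem_toFinset, Set.mem_image, Subtype.exists,
          exists_and_right, exists_eq_right]
        constructor
        · rintro ⟨h1, h2⟩
          have h3 := (hmem z).1 h1
          simp only [comp, h3, dif_pos, Function.Embedding.some_apply, Option.some.injEq] at h2
          exact ⟨h3, h2⟩
        · rintro ⟨h3, h2⟩
          refine ⟨(hmem z).2 h3, ?_⟩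
          simp only [comp, h3, dif_pos, Function.Embedding.some_apply, Option.some.injEq]
          exact h2
      rw [hEq]
      exact hC'
  obtain ⟨M, hM⟩ := hM
  have h1 : ∀ v, ∃! w, M.Adj v w := fun v => hM.1 (hM.2 v)
  choose f hf huniq using h1
  refine ⟨f, fun x => ?_, fun x => M.adj_sub (hf x)⟩
  have := huniq (f x) x (hf x).symm
  exact this.symm

end Pool.Agent.DDH
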