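import Mathlib
import Pool.Agent.DDH.Dominate

/-!
Degree conditions force a minimal factor to be a single cycle.
-/

namespace Pool.Agent.DDH
open Finset Function

variable {W : Type*} [Fintype W] {c : W → W → Bool} {r b : W → W}

theorem cls_swap (x : W) : cls b r x = cls r b x := by
  ext y
  exact ⟨fun h S hS => h S ((clo_swap _ _ _).1 hS), fun h S hS => h S ((clo_swap _ _ _).1 hS)⟩

theorem opp_symm (hc : ∀ x y, c x y = c y x) : ∀ x y, opp c x y = opp c y x :=
  fun x y => by simp [opp, hc x y]

/-- In a dominating cycle each red class is a red clique. -/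
theorem clique_true (hc : ∀ x y, c x y = c y x) (hmin : IsMin c r b) {x0 y0 : W}
    (hxy : y0 ∉ cls r b x0) (hdom : ∀ x ∈ cls r b x0, ∀ y ∈ cls r b y0, c x (r y) = c x y)
    {x x' : W} (hx : x ∈ cls r b x0) (hx' : x' ∈ cls r b x0) (hne : x ≠ x')
    (h1 : c x y0 = true) (h2 : c x' y0 = true) : c x x' = true := by
  have hF := hmin.1
  have hX := clo_cls hF x0
  have hY := clo_cls hF y0
  have hYy := mem_cls_self r b y0
  have hdisj := disj_cls hxy
  have hdomb : ∀ x ∈ cls r b x0, ∀ y ∈ cls r b y0, c x (b y) = c x y := fun x hx y hy => by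
    rw [(same_step hc hmin hxy hx hy).1]; exact hdom x hx y hy
  have har : ∀ z ∈ cls r b x0, c (r z) y0 = !(c z y0) := by
    intro z hz
    have e := flip_red hc hmin hX hz (hdisj _ (hY _ hYy).1)
    rw [hF.rr] at e
    rw [e, hdom z hz y0 hYy]
  have hab : ∀ z ∈ cls r b x0, c (b z) y0 = !(c z y0) := by
    intro z hz
    have e := flip_blue hc hmin hX hz (hdisj _ (hY _ hYy).2)
    rw [hF.bb] at e
    rw [e, hdomb z hz y0 hYy]
  by_contra h
  refine chord hc hmin hX (fun z => c z y0) har hab hx hx' hne h1 h2 (hdisj _ hYy)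
    (by simpa using h) ?_ ?_
  · rw [hab x hx, h1]; rfl
  · rw [hdomb _ (hX _ hx').2 y0 hYy, hab x' hx', h2]; rfl

theorem clique_false (hc : ∀ x y, c x y = c y x) (hmin : IsMin c r b) {x0 y0 : W}
    (hxy : y0 ∉ cls r b x0) (hdom : ∀ x ∈ cls r b x0, ∀ y ∈ cls r b y0, c x (r y) = c x y)
    {x x' : W} (hx : x ∈ cls r b x0) (hx' : x' ∈ cls r b x0) (hne : x ≠ x')
    (h1 : c x y0 = false) (h2 : c x' y0 = false) : c x x' = false := by
  have hdomb : ∀ x ∈ cls r b x0, ∀ y ∈ cls r b y0, c x (b y) = c x y := fun x hx y hy => by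
    rw [(same_step hc hmin hxy hx hy).1]; exact hdom x hx y hy
  have := clique_true (c := opp c) (r := b) (b := r) (opp_symm hc) hmin.swap (x0 := x0) (y0 := y0)
    (by rw [cls_swap]; exact hxy)
    (by
      intro x hx y hy
      rw [cls_swap] at hx hy
      simp only [opp, hdomb x hx y hy])
    (x := x) (x' := x') (by rw [cls_swap]; exact hx) (by rw [cls_swap]; exact hx') hne
    (by simp [opp, h1]) (by simp [opp, h2])
  simpa [opp] using this

theorem dom_contra_true [DecidableEq W] (hc : ∀ x y, c x y = c y x) (hmin : IsMin c r b)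
    {x0 y0 : W} (hxy : y0 ∉ cls r b x0)
    (hdom : ∀ x ∈ cls r b x0, ∀ y ∈ cls r b y0, c x (r y) = c x y)
    {x : W} (hx : x ∈ cls r b x0) (hax : c x y0 = true) (n : ℕ) (hW : Fintype.card W = 2 * n)
    (hdeg : n - 1 ≤ #{y | y ≠ x ∧ c x y = false}) : False := by
  classical
  have hF := hmin.1
  have hX := clo_cls hF x0
  have hY := clo_cls hF y0
  have hYy := mem_cls_self r b y0
  have hdisj := disj_cls hxy
  have hdomb : ∀ x ∈ cls r b x0, ∀ y ∈ cls r b y0, c x (b y) = c x y := fun x hx y hy => by
    rw [(same_step hc hmin hxy hx hy).1]; exact hdom x hx y hy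
  have hconst : ∀ x ∈ cls r b x0, ∀ y ∈ cls r b y0, c x y = c x y0 := by
    intro x hx y hy
    have hS : Clo r b {y | y ∈ cls r b y0 ∧ c x y = c x y0} := by
      rintro y ⟨h1, h2⟩
      exact ⟨⟨(hY _ h1).1, by rw [hdom x hx y h1]; exact h2⟩,
        ⟨(hY _ h1).2, by rw [hdomb x hx y h1]; exact h2⟩⟩
    exact (cls_subset hS ⟨hYy, rfl⟩ hy).2
  have har : ∀ z ∈ cls r b x0, c (r z) y0 = !(c z y0) := by
    intro z hz
    have e := flip_red hc hmin hX hz (hdisj _ (hY _ hYy).1)
    rw [hF.rr] at e
    rw [e, hdom z hz y0 hYy]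
  have hab : ∀ z ∈ cls r b x0, c (b z) y0 = !(c z y0) := by
    intro z hz
    have e := flip_blue hc hmin hX hz (hdisj _ (hY _ hYy).2)
    rw [hF.bb] at e
    rw [e, hdomb z hz y0 hYy]
  -- the false neighbours of `x`
  set F : Finset W := univ.filter (fun y => y ≠ x ∧ c x y = false) with hFd
  have hmem : ∀ y, y ∈ F ↔ y ≠ x ∧ c x y = false := fun y => by simp [hFd]
  -- the vertex `σ x`
  have hsx : sg r b x ∈ cls r b x0 := (hX _ (hX _ hx).2).1
  have hsne : sg r b x ≠ x := by
    intro h
    have h1 : b x = r x := by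
      have := congrArg r h
      simp only [sg] at this
      rwa [hF.rr] at this
    have h2 := hF.rc x
    rw [← h1, hF.bc x] at h2
    simp at h2
  have hsa : c (sg r b x) y0 = true := by
    simp only [sg]
    rw [har _ (hX _ hx).2, hab _ hx, hax]; rfl
  have hsc : c x (sg r b x) = true := clique_true hc hmin hxy hdom hx hsx hsne.symm hax hsa
  have hpair : ∀ z, ¬ (z ∈ F ∧ r z ∈ F) := by
    rintro z ⟨h1, h2⟩
    rw [hmem] at h1 h2
    by_cases hzX : z ∈ cls r b x0
    · by_cases haz : c z y0 = true
      · have := clique_true hc hmin hxy hdom hx hzX h1.1.symm hax haz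
        rw [h1.2] at this
        simp at this
      · have haz' : c (r z) y0 = true := by rw [har z hzX]; simpa using haz
        have := clique_true hc hmin hxy hdom hx (hX _ hzX).1 h2.1.symm hax haz'
        rw [h2.2] at this
        simp at this
    · have hzx0 : z ∉ cls r b x0 := hzX
      rcases dom_or hc hmin hzx0 with hd | hd
      · -- `X` dominates the cycle of `z`
        have hZz := mem_cls_self r b z
        have hdb : ∀ x ∈ cls r b x0, c x (b z) = c x z := fun x hx => by
          rw [(same_step hc hmin hzx0 hx hZz).1]; exact hd x hx z hZz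
        have e1 : c (b x) z = !(c x z) := by
          have e := flip_blue hc hmin hX hx ((hX.compl hF) _ hzX).2
          rw [hF.bb] at e
          rw [e, hdb x hx]
        have e2 : c (sg r b x) z = !(c (b x) z) := by
          have e := flip_red hc hmin hX (hX _ hx).2 ((hX.compl hF) _ hzX).1
          rw [hF.rr] at e
          simp only [sg]
          rw [e, hd _ (hX _ hx).2 z hZz]
        have e3 : c (sg r b x) z = false := by rw [e2, e1, h1.2]; rfl
        have := clique_false hc hmin hzx0 hd hx hsx hsne.symm h1.2 e3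
        rw [hsc] at this
        simp at this
      · have hZz := mem_cls_self r b z
        have e := flip_red hc hmin hX hx hzX
        rw [hd x hx (r z) ((clo_cls hF z) z hZz).1, h2.2, h1.2] at e
        simp at e
  have hFY : ∀ z ∈ F, z ∉ cls r b y0 := by
    intro z hz hzY
    rw [hmem] at hz
    rw [hconst x hx z hzY, hax] at hz
    simp at hz
  have hd1 : Disjoint F (F.image r) := by
    rw [Finset.disjoint_left]
    intro z hz hz'
    rw [mem_image] at hz'
    obtain ⟨z', hz1, rfl⟩ := hz'
    exact hpair z' ⟨hz1, hz⟩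
  have hci : (F.image r).card = F.card := by
    apply card_image_of_injective
    intro p q h
    rw [← hF.rr p, h, hF.rr]
  set Y3 : Finset W := {y0, r y0, b y0} with hY3
  have hY3c : Y3.card = 3 := by
    rw [hY3, card_insert_of_notMem, card_pair]
    · intro h
      have h1 := hF.rc y0
      rw [h, hF.bc] at h1
      simp at h1
    · simp only [mem_insert, mem_singleton, not_or]
      exact ⟨(hF.rne y0).symm, (hF.bne y0).symm⟩
  have hY3m : ∀ z ∈ Y3, z ∈ cls r b y0 := by
    intro z hz
    simp only [hY3, mem_insert, mem_singleton] at hz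
    rcases hz with rfl | rfl | rfl
    · exact hYy
    · exact (hY _ hYy).1
    · exact (hY _ hYy).2
  have hd2 : Disjoint (F ∪ F.image r) Y3 := by
    rw [Finset.disjoint_left]
    intro z hz hz'
    have hzY := hY3m z hz'
    rw [mem_union, mem_image] at hz
    rcases hz with hz | ⟨z', hz1, rfl⟩
    · exact hFY z hz hzY
    · apply hFY z' hz1
      have := (hY _ hzY).1
      rwa [hF.rr] at this
  have htot : ((F ∪ F.image r) ∪ Y3).card ≤ 2 * n := by
    rw [← hW]
    exact card_le_univ _
  rw [card_union_of_disjoint hd2, card_union_of_disjoint hd1, hci, hY3c] at htot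
  omega

/-- With all degrees (except at one vertex) at least `n - 1` in both colours, a minimal factor
is a single cycle. -/
theorem single [DecidableEq W] (hc : ∀ x y, c x y = c y x) (hmin : IsMin c r b) (n : ℕ)
    (hW : Fintype.card W = 2 * n) (w : W)
    (hdeg : ∀ z, z ≠ w → n - 1 ≤ #{y | y ≠ z ∧ c z y = false} ∧
      n - 1 ≤ #{y | y ≠ z ∧ c z y = true}) (x0 y0 : W) : y0 ∈ cls r b x0 := by
  by_contra hxy
  have hF := hmin.1
  have aux : ∀ x0 y0 : W, y0 ∉ cls r b x0 →
      (∀ x ∈ cls r b x0, ∀ y ∈ cls r b y0, c x (r y) = c x y) → False := by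
    intro x0 y0 hxy hdom
    have hX := clo_cls hF x0
    have hXx := mem_cls_self r b x0
    obtain ⟨x, hx, hxw⟩ : ∃ x ∈ cls r b x0, x ≠ w := by
      by_cases h : x0 = w
      · exact ⟨r x0, (hX _ hXx).1, by rw [← h]; exact hF.rne x0⟩
      · exact ⟨x0, hXx, h⟩
    by_cases hax : c x y0 = true
    · exact dom_contra_true hc hmin hxy hdom hx hax n hW (hdeg x hxw).1
    · have hdomb : ∀ x ∈ cls r b x0, ∀ y ∈ cls r b y0, c x (b y) = c x y := fun x hx y hy => by
        rw [(same_step hc hmin hxy hx hy).1]; exact hdom x hx y hy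
      refine dom_contra_true (c := opp c) (r := b) (b := r) (opp_symm hc) hmin.swap (x0 := x0)
        (y0 := y0) (by rw [cls_swap]; exact hxy) ?_ (x := x) (by rw [cls_swap]; exact hx)
        (by simpa [opp] using hax) n hW ?_
      · intro x hx y hy
        rw [cls_swap] at hx hy
        simp only [opp, hdomb x hx y hy]
      · have := (hdeg x hxw).2
        simpa [opp] using this
  rcases dom_or hc hmin hxy with h | h
  · exact aux x0 y0 hxy h
  · apply aux y0 x0 (not_mem_cls_symm hxy)
    intro y hy x hx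
    rw [hc y (r x), hc y x]
    exact h x hx y hy

/-- A minimal factor exists as soon as there is a factor. -/
theorem exists_min (h : ∃ r b, Fac c r b) : ∃ r b, IsMin c r b := by
  classical
  have hex : ∃ k : ℕ, ∃ r b, Fac c r b ∧ Set.ncard {S : Set W | Clo r b S} = k := by
    obtain ⟨r, b, h⟩ := h
    exact ⟨_, r, b, h, rfl⟩
  obtain ⟨r, b, hF, hk⟩ := Nat.find_spec hex
  refine ⟨r, b, hF, fun r' b' hF' hs => ?_⟩
  have h1 := Set.ncard_lt_ncard hs (Set.toFinite _)
  rw [hk] at h1
  exact Nat.find_min hex h1 ⟨r', b', hF', rfl⟩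

end Pool.Agent.DDH
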