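import Mathlib
import Pool.Agent.DDH.Single
import Pool.Agent.DDH.Matching

/-!
Alternating Hamilton cycles in nearly balanced 2-edge-coloured complete graphs of even order.
-/

namespace Pool.Agent.DDH
open Finset Function

variable {W : Type*} [Fintype W] {c : W → W → Bool} {r b : W → W}

theorem exists_fac [DecidableEq W] (hc : ∀ x y, c x y = c y x) (n : ℕ) (hn : 2 ≤ n) (hev : Even n)
    (hW : Fintype.card W = 2 * n) (w : W)
    (hdeg : ∀ z, z ≠ w → n - 1 ≤ #{y | y ≠ z ∧ c z y = false} ∧
      n - 1 ≤ #{y | y ≠ z ∧ c z y = true})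
    (hw : 1 ≤ #{y | y ≠ w ∧ c w y = false} ∧ 1 ≤ #{y | y ≠ w ∧ c w y = true}) :
    ∃ r b, Fac c r b := by
  classical
  have htot : ∀ z, #{y | y ≠ z ∧ c z y = false} + #{y | y ≠ z ∧ c z y = true} = 2 * n - 1 := by
    intro z
    have h1 : univ.erase z = univ.filter (fun y => y ≠ z) := by
      ext y; simp
    have h2 : (univ.filter (fun y => y ≠ z)).card = 2 * n - 1 := by
      rw [← h1, card_erase_of_mem (mem_univ z), card_univ, hW]
    rw [← h2, ← card_filter_add_card_filter_not (s := univ.filter (fun y => y ≠ z)) (fun y => c z y = false)]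
    rw [filter_filter, filter_filter]
    congr 2
    apply filter_congr
    intro y _
    simp
  have key : ∀ t : Bool, ∃ f : W → W, (∀ x, f (f x) = x) ∧ ∀ x, f x ≠ x ∧ c x (f x) = t := by
    intro t
    let H : SimpleGraph W :=
      { Adj := fun x y => y ≠ x ∧ c x y = t
        symm := ⟨fun x y h => ⟨h.1.symm, by rw [hc]; exact h.2⟩⟩
        loopless := ⟨fun x h => h.1 rfl⟩ }
    have hcount : ∀ z, #{y | H.Adj z y} = #{y | y ≠ z ∧ c z y = t} := fun z => rfl
    have hd : ∀ z, z ≠ w → n - 1 ≤ #{y | y ≠ z ∧ c z y = t} ∧ #{y | y ≠ z ∧ c z y = t} ≤ n := by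
      intro z hz
      have h1 := hdeg z hz
      have h2 := htot z
      cases t
      · exact ⟨h1.1, by omega⟩
      · exact ⟨h1.2, by omega⟩
    have hdw : 1 ≤ #{y | y ≠ w ∧ c w y = t} ∧ #{y | y ≠ w ∧ c w y = t} ≤ 2 * n - 2 := by
      have h2 := htot w
      cases t
      · exact ⟨hw.1, by omega⟩
      · exact ⟨hw.2, by omega⟩
    obtain ⟨f, hf, hf'⟩ := exists_matching H n hn hev hW w
      (fun z hz => by rw [hcount]; exact (hd z hz).1) (fun z hz => by rw [hcount]; exact (hd z hz).2)
      (by rw [hcount]; exact hdw.1) (by rw [hcount]; exact hdw.2)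
    exact ⟨f, hf, hf'⟩
  obtain ⟨r, hr, hr'⟩ := key true
  obtain ⟨b, hb, hb'⟩ := key false
  exact ⟨r, b, hr, hb, fun x => (hr' x).1, fun x => (hb' x).1, fun x => (hr' x).2,
    fun x => (hb' x).2⟩

theorem ham_cycle [DecidableEq W] (hc : ∀ x y, c x y = c y x) (n : ℕ) (hn : 2 ≤ n) (hev : Even n)
    (hW : Fintype.card W = 2 * n) (w : W)
    (hdeg : ∀ z, z ≠ w → n - 1 ≤ #{y | y ≠ z ∧ c z y = false} ∧
      n - 1 ≤ #{y | y ≠ z ∧ c z y = true})
    (hw : 1 ≤ #{y | y ≠ w ∧ c w y = false} ∧ 1 ≤ #{y | y ≠ w ∧ c w y = true}) :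
    ∃ s : ℕ → W, s 0 = w ∧ (∀ i < 2 * n, ∀ j < 2 * n, s i = s j → i = j) ∧
      (∀ i, c (s i) (s (i + 1)) = decide (i % 2 = 1)) ∧ c (s (2 * n - 1)) w = true := by
  classical
  obtain ⟨r, b, hmin⟩ := exists_min (exists_fac hc n hn hev hW w hdeg hw)
  have hF := hmin.1
  have hone := single hc hmin n hW w hdeg w
  set m := minimalPeriod (sg r b) w with hm
  set s : ℕ → W := fun i => if i % 2 = 0 then (sg r b)^[i / 2] w else b ((sg r b)^[i / 2] w) with hs
  have injx : ∀ j < m, ∀ k < m, (sg r b)^[j] w = (sg r b)^[k] w → j = k :=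
    fun j hj k hk h => iterate_injOn_Iio_minimalPeriod (Set.mem_Iio.2 hj) (Set.mem_Iio.2 hk) h
  have hsinj : ∀ i < 2 * m, ∀ j < 2 * m, s i = s j → i = j := by
    intro i hi j hj h
    simp only [hs] at h
    have h1 : i / 2 < m := by omega
    have h2 : j / 2 < m := by omega
    by_cases e1 : i % 2 = 0
    · by_cases e2 : j % 2 = 0
      · rw [if_pos e1, if_pos e2] at h
        have := injx _ h1 _ h2 h
        omega
      · rw [if_pos e1, if_neg e2] at h
        exact absurd h (sg_mix hF _ _ _).2
    · by_cases e2 : j % 2 = 0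
      · rw [if_neg e1, if_pos e2] at h
        exact absurd h.symm (sg_mix hF _ _ _).2
      · rw [if_neg e1, if_neg e2] at h
        have h3 : (sg r b)^[i / 2] w = (sg r b)^[j / 2] w := by
          have := congrArg b h
          rwa [hF.bb, hF.bb] at this
        have := injx _ h1 _ h2 h3
        omega
  have hle : 2 * m ≤ 2 * n := by
    have h1 : ((range (2 * m)).image s).card = 2 * m := by
      rw [card_image_of_injOn, card_range]
      intro i hi j hj h
      exact hsinj i (mem_range.1 hi) j (mem_range.1 hj) h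
    rw [← h1, ← hW]
    exact card_le_univ _
  have hge : 2 * n ≤ 2 * m := by
    have h1 : (univ : Finset W) ⊆ (range m).image (fun k => (sg r b)^[k] w) ∪
        (range m).image (fun k => r ((sg r b)^[k] w)) := by
      intro z _
      obtain ⟨k, hk, h | h⟩ := cls_form hF w z (hone z)
      · rw [mem_union, mem_image]
        exact Or.inl ⟨k, mem_range.2 hk, h.symm⟩
      · rw [mem_union, mem_image, mem_image]
        exact Or.inr ⟨k, mem_range.2 hk, h.symm⟩
    have h2 := card_le_card h1
    have h3 := card_union_le ((range m).image (fun k => (sg r b)^[k] w))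
      ((range m).image (fun k => r ((sg r b)^[k] w)))
    have h4 := card_image_le (s := range m) (f := fun k => (sg r b)^[k] w)
    have h5 := card_image_le (s := range m) (f := fun k => r ((sg r b)^[k] w))
    rw [card_range] at h4 h5
    rw [card_univ, hW] at h2
    omega
  have hmn : m = n := by omega
  refine ⟨s, by simp [hs], ?_, ?_, ?_⟩
  · rw [← hmn]; exact hsinj
  · intro i
    simp only [hs]
    rcases Nat.mod_two_eq_zero_or_one i with h | h
    · have h1 : (i + 1) % 2 = 1 := by omega
      have h2 : (i + 1) / 2 = i / 2 := by omega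
      rw [if_pos h, if_neg (by omega), h2, hF.bc]
      simp [h]
    · have h1 : (i + 1) % 2 = 0 := by omega
      have h2 : (i + 1) / 2 = i / 2 + 1 := by omega
      rw [if_neg (by omega), if_pos h1, h2, iterate_succ_apply']
      simp only [sg]
      rw [hF.rc]
      simp [h]
  · have h1 : (2 * n - 1) % 2 = 1 := by omega
    have h2 : (2 * n - 1) / 2 = n - 1 := by omega
    simp only [hs]
    rw [if_neg (by omega), h2]
    have h3 : r (b ((sg r b)^[n - 1] w)) = w := by
      have : (sg r b)^[n] w = w := by rw [← hmn]; exact iterate_minimalPeriod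
      have h4 : n = (n - 1) + 1 := by omega
      rw [h4, iterate_succ_apply'] at this
      exact this
    have h5 := hF.rc (b ((sg r b)^[n - 1] w))
    rwa [h3] at h5

end Pool.Agent.DDH
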