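import Mathlib
import Pool.Agent.DDH.HamCycle

/-!
Alternating Hamilton paths with prescribed ends in balanced 2-edge-coloured complete graphs.
-/

namespace Pool.Agent.DDH
open Finset Function

/-- Walk in the complete graph along a sequence of vertices. -/
theorem exists_walk {V : Type*} (p : ℕ → V) (N : ℕ) (hp : ∀ i < N, p i ≠ p (i + 1)) :
    ∃ q : (⊤ : SimpleGraph V).Walk (p 0) (p N),
      q.support = (List.range (N + 1)).map p ∧
      q.edges = (List.range N).map (fun i => s(p i, p (i + 1))) := by
  induction N with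
  | zero => exact ⟨SimpleGraph.Walk.nil, by simp, by simp⟩
  | succ N ih =>
    obtain ⟨q, h1, h2⟩ := ih (fun i hi => hp i (by omega))
    have hadj : (⊤ : SimpleGraph V).Adj (p N) (p (N + 1)) := hp N (by omega)
    refine ⟨q.concat hadj, ?_, ?_⟩
    · rw [SimpleGraph.Walk.support_concat, h1, List.range_succ (n := N + 1)]
      simp
    · rw [SimpleGraph.Walk.edges_concat, h2, List.range_succ (n := N)]
      simp

/-- From an injective sequence with alternating colours to a Hamilton path. -/
theorem exists_ham {V : Type*} [Fintype V] [DecidableEq V] (c : Sym2 V → Bool) (p : ℕ → V) (N : ℕ)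
    (hV : Fintype.card V = N + 1)
    (hinj : ∀ i ≤ N, ∀ j ≤ N, p i = p j → i = j)
    (halt : ∀ i, i + 2 ≤ N → c s(p i, p (i + 1)) ≠ c s(p (i + 1), p (i + 2))) :
    ∃ q : (⊤ : SimpleGraph V).Walk (p 0) (p N), q.IsHamiltonian ∧
      q.edges.IsChain (fun e f => c e ≠ c f) := by
  obtain ⟨q, h1, h2⟩ := exists_walk p N (fun i hi h => by
    have := hinj i (by omega) (i + 1) (by omega) h
    omega)
  refine ⟨q, ?_, ?_⟩
  · rw [SimpleGraph.Walk.isHamiltonian_iff_isPath_and_length_eq]
    constructor
    · rw [SimpleGraph.Walk.isPath_def, h1]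
      rw [List.nodup_map_iff_inj_on List.nodup_range]
      intro i hi j hj h
      rw [List.mem_range] at hi hj
      exact hinj i (by omega) j (by omega) h
    · have h3 := q.length_support
      rw [h1, List.length_map, List.length_range] at h3
      omega
  · rw [h2, List.isChain_iff_getElem]
    intro i hi
    rw [List.length_map, List.length_range] at hi
    simp only [List.getElem_map, List.getElem_range]
    exact halt i (by omega)

section glue

variable {V : Type*} [Fintype V] [DecidableEq V]

/-- The vertices different from `u` and `v`, and one more vertex. -/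
abbrev GV (u v : V) : Type _ := Option {z : V // z ≠ u ∧ z ≠ v}

/-- The glued colouring: the new vertex sees red when `u` or `v` does. -/
def gc (c : V → V → Bool) (u v : V) : GV u v → GV u v → Bool
  | none, none => true
  | none, some a => c u a || c v a
  | some a, none => c u a || c v a
  | some a, some b => c a b

theorem gc_symm (c : V → V → Bool) (hc : ∀ x y, c x y = c y x) (u v : V) :
    ∀ x y, gc c u v x y = gc c u v y x := by
  intro x y
  rcases x with _ | x <;> rcases y with _ | y <;> simp [gc]
  exact hc _ _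

theorem sum_split (u v : V) (huv : u ≠ v) (g : V → ℕ) :
    ∑ z, g z = g u + (g v + ∑ a : {z : V // z ≠ u ∧ z ≠ v}, g a) := by
  have h1 : (univ : Finset V) = insert u (insert v (univ.filter (fun z => z ≠ u ∧ z ≠ v))) := by
    ext z
    simp only [mem_univ, mem_insert, mem_filter, true_and, true_iff]
    tauto
  rw [h1, sum_insert (by simp [huv]), sum_insert (by simp)]
  congr 2
  exact sum_subtype _ (fun z => by simp) g

theorem card_glue (u v : V) (huv : u ≠ v) (n : ℕ) (hV : Fintype.card V = 2 * n + 1) :
    Fintype.card (GV u v) = 2 * n := by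
  have h1 := sum_split u v huv (fun _ => 1)
  simp only [sum_const, card_univ, smul_eq_mul, mul_one] at h1
  rw [Fintype.card_option]
  omega

/-- One of the two orders of the ends admits an alternating Hamilton sequence. -/
theorem glue_main (c : V → V → Bool) (hc : ∀ x y, c x y = c y x) (n : ℕ) (hn : 2 ≤ n)
    (hev : Even n) (hV : Fintype.card V = 2 * n + 1)
    (hbal : ∀ x, #{y | y ≠ x ∧ c x y = true} = n ∧ #{y | y ≠ x ∧ c x y = false} = n)
    {u v : V} (huv : u ≠ v) (hcuv : c u v = true) :
    ∃ (p : ℕ → V), ((p 0 = u ∧ p (2 * n) = v) ∨ (p 0 = v ∧ p (2 * n) = u)) ∧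
      (∀ i ≤ 2 * n, ∀ j ≤ 2 * n, p i = p j → i = j) ∧
      (∀ i < 2 * n, c (p i) (p (i + 1)) = decide (i % 2 = 1)) := by
  classical
  have hW := card_glue u v huv n hV
  -- degrees in the original colouring as sums
  have hdV : ∀ x : V, ∀ t : Bool, n = (if u ≠ x ∧ c x u = t then 1 else 0) +
      ((if v ≠ x ∧ c x v = t then 1 else 0) +
      ∑ a : {z : V // z ≠ u ∧ z ≠ v}, if (a : V) ≠ x ∧ c x a = t then 1 else 0) := by
    intro x t
    have h1 := sum_split u v huv (fun y => if y ≠ x ∧ c x y = t then 1 else 0)
    rw [← h1, ← card_filter]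
    cases t
    · exact (hbal x).2.symm
    · exact (hbal x).1.symm
  -- degrees of old vertices in the glued colouring
  have hd1 : ∀ a : {z : V // z ≠ u ∧ z ≠ v}, ∀ t : Bool,
      n - 1 ≤ #{y : GV u v | y ≠ some a ∧ gc c u v (some a) y = t} := by
    intro a t
    rw [card_filter, Fintype.sum_option]
    have h1 := hdV a t
    have h2 : (∑ b : {z : V // z ≠ u ∧ z ≠ v},
        if (some b : GV u v) ≠ some a ∧ gc c u v (some a) (some b) = t then 1 else 0) =
        ∑ b : {z : V // z ≠ u ∧ z ≠ v}, if (b : V) ≠ a ∧ c a b = t then 1 else 0 := by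
      apply sum_congr rfl
      intro b _
      have : ((some b : GV u v) ≠ some a) ↔ ((b : V) ≠ a) := by
        rw [Ne, Option.some_inj, Subtype.ext_iff]
      simp only [this, gc]
    rw [h2]
    have h3 : (if (none : GV u v) ≠ some a ∧ gc c u v (some a) none = t then 1 else 0) =
        if (c u a || c v a) = t then 1 else 0 := by
      simp [gc]
    rw [h3]
    rw [hc a u, hc a v] at h1
    have hu : u ≠ a := fun h => a.2.1 h.symm
    have hv : v ≠ a := fun h => a.2.2 h.symm
    generalize (∑ b : {z : V // z ≠ u ∧ z ≠ v}, if (b : V) ≠ a ∧ c a b = t then 1 else 0) = SS at h1 ⊢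
    simp only [ne_eq, hu, hv, not_false_eq_true, true_and] at h1
    revert h1
    cases t <;> cases c u a <;> cases c v a <;> simp <;> omega
  have hsub : Fintype.card {z : V // z ≠ u ∧ z ≠ v} = 2 * n - 1 := by
    have := hW
    rw [Fintype.card_option] at this
    omega
  -- the number of red neighbours of `u` and `v` among the others
  have hu1 : ∑ a : {z : V // z ≠ u ∧ z ≠ v}, (if c u a = true then 1 else 0) = n - 1 := by
    have h1 := hdV u true
    have h2 : (∑ a : {z : V // z ≠ u ∧ z ≠ v}, if (a : V) ≠ u ∧ c u a = true then 1 else 0) =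
        ∑ a : {z : V // z ≠ u ∧ z ≠ v}, if c u a = true then 1 else 0 := by
      apply sum_congr rfl
      intro a _
      simp [a.2.1]
    rw [h2] at h1
    generalize (∑ a : {z : V // z ≠ u ∧ z ≠ v}, if c u a = true then 1 else 0) = SS at h1 ⊢
    rw [if_neg (by simp), if_pos ⟨huv.symm, hcuv⟩] at h1
    omega
  have hv1 : ∑ a : {z : V // z ≠ u ∧ z ≠ v}, (if c v a = true then 1 else 0) = n - 1 := by
    have h1 := hdV v true
    have h2 : (∑ a : {z : V // z ≠ u ∧ z ≠ v}, if (a : V) ≠ v ∧ c v a = true then 1 else 0) =
        ∑ a : {z : V // z ≠ u ∧ z ≠ v}, if c v a = true then 1 else 0 := by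
      apply sum_congr rfl
      intro a _
      simp [a.2.2]
    rw [h2] at h1
    have hcvu : c v u = true := by rw [hc]; exact hcuv
    generalize (∑ a : {z : V // z ≠ u ∧ z ≠ v}, if c v a = true then 1 else 0) = SS at h1 ⊢
    rw [if_pos ⟨huv, hcvu⟩, if_neg (by simp)] at h1
    omega
  have hw : 1 ≤ #{y : GV u v | y ≠ none ∧ gc c u v none y = false} ∧
      1 ≤ #{y : GV u v | y ≠ none ∧ gc c u v none y = true} := by
    constructor
    · by_contra hcon
      have h0 : ∀ a : {z : V // z ≠ u ∧ z ≠ v}, 1 ≤ (if c u a = true then 1 else 0) +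
          (if c v a = true then 1 else 0) := by
        intro a
        by_contra h
        apply hcon
        apply card_pos.2
        refine ⟨some a, mem_filter.2 ⟨mem_univ _, by simp, ?_⟩⟩
        change (c u a || c v a) = false
        revert h
        cases c u a <;> cases c v a <;> simp
      have h1 := sum_le_sum (s := (univ : Finset {z : V // z ≠ u ∧ z ≠ v})) (fun a _ => h0 a)
      rw [sum_add_distrib, hu1, hv1, sum_const, card_univ, hsub] at h1
      simp only [smul_eq_mul, mul_one] at h1
      omega
    · have hex : ∃ a : {z : V // z ≠ u ∧ z ≠ v}, c u a = true := by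
        by_contra hcon
        push Not at hcon
        have : ∑ a : {z : V // z ≠ u ∧ z ≠ v}, (if c u a = true then 1 else 0) = 0 := by
          apply sum_eq_zero
          intro a _
          simp [hcon a]
        omega
      obtain ⟨a, ha⟩ := hex
      apply card_pos.2
      refine ⟨some a, mem_filter.2 ⟨mem_univ _, by simp, ?_⟩⟩
      change (c u a || c v a) = true
      simp [ha]
  obtain ⟨s, hs0, hsinj, hscol, hslast⟩ := ham_cycle (gc_symm c hc u v) n hn hev hW none
    (by
      intro z hz
      rcases z with _ | a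
      · exact absurd rfl hz
      · exact ⟨hd1 a false, hd1 a true⟩) hw
  -- the sequence avoids the glued vertex after the start
  have hsome : ∀ i, 1 ≤ i → i < 2 * n → ∃ a : {z : V // z ≠ u ∧ z ≠ v}, s i = some a := by
    intro i h1 h2
    rcases h : s i with _ | a
    · have := hsinj i h2 0 (by omega) (by rw [h, hs0])
      omega
    · exact ⟨a, rfl⟩
  obtain ⟨al, hal⟩ := hsome (2 * n - 1) (by omega) (by omega)
  obtain ⟨a1, ha1⟩ := hsome 1 (by omega) (by omega)
  have hc1 := hscol 0
  rw [hs0, Nat.zero_add, ha1] at hc1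
  simp only [gc, Nat.zero_mod, zero_ne_one, decide_false, Bool.or_eq_false_iff] at hc1
  rw [hal] at hslast
  simp only [gc, Bool.or_eq_true] at hslast
  -- choose the ends
  obtain ⟨e0, e1, hends, he01, h0, h1⟩ : ∃ e0 e1 : V, ((e0 = u ∧ e1 = v) ∨ (e0 = v ∧ e1 = u)) ∧
      e0 ≠ e1 ∧ c e0 a1 = false ∧ c al e1 = true := by
    rcases hslast with h | h
    · exact ⟨v, u, Or.inr ⟨rfl, rfl⟩, huv.symm, hc1.2, by rw [hc]; exact h⟩
    · exact ⟨u, v, Or.inl ⟨rfl, rfl⟩, huv, hc1.1, by rw [hc]; exact h⟩
  have hane0 : ∀ a : {z : V // z ≠ u ∧ z ≠ v}, (a : V) ≠ e0 := by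
    intro a
    rcases hends with h | h
    · rw [h.1]; exact a.2.1
    · rw [h.1]; exact a.2.2
  have hane1 : ∀ a : {z : V // z ≠ u ∧ z ≠ v}, (a : V) ≠ e1 := by
    intro a
    rcases hends with h | h
    · rw [h.2]; exact a.2.2
    · rw [h.2]; exact a.2.1
  let g : GV u v → V := fun x => x.elim e0 (fun a => (a : V))
  have hginj : ∀ x y, g x = g y → x = y := by
    intro x y h
    rcases x with _ | x <;> rcases y with _ | y
    · rfl
    · exact absurd h.symm (hane0 y)
    · exact absurd h (hane0 x)
    · exact congrArg some (Subtype.ext h)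
  have hge1 : ∀ x, g x ≠ e1 := by
    intro x
    rcases x with _ | x
    · exact he01
    · exact hane1 x
  refine ⟨fun i => if i = 2 * n then e1 else g (s i), ?_, ?_, ?_⟩
  · have h3 : (0 : ℕ) ≠ 2 * n := by omega
    have h4 : g (s 0) = e0 := by rw [hs0]; rfl
    rcases hends with h | h
    · left
      simp only [if_neg h3, h4, if_true]
      exact h
    · right
      simp only [if_neg h3, h4, if_true]
      exact h
  · intro i hi j hj h
    simp only at h
    by_cases h5 : i = 2 * n
    · by_cases h6 : j = 2 * n
      · rw [h5, h6]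
      · rw [if_pos h5, if_neg h6] at h
        exact absurd h.symm (hge1 _)
    · by_cases h6 : j = 2 * n
      · rw [if_neg h5, if_pos h6] at h
        exact absurd h (hge1 _)
      · rw [if_neg h5, if_neg h6] at h
        exact hsinj i (by omega) j (by omega) (hginj _ _ h)
  · intro i hi
    have h5 : i ≠ 2 * n := by omega
    by_cases h6 : i + 1 = 2 * n
    · have h7 : i = 2 * n - 1 := by omega
      simp only [if_neg h5, if_pos h6]
      rw [h7, hal]
      have h8 : (2 * n - 1) % 2 = 1 := by omega
      simp only [g, Option.elim, h8, decide_true]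
      exact h1
    · simp only [if_neg h5, if_neg h6]
      by_cases h7 : i = 0
      · subst h7
        rw [hs0, Nat.zero_add, ha1]
        simp only [g, Option.elim]
        rw [h0]; rfl
      · obtain ⟨x, hx⟩ := hsome i (by omega) (by omega)
        obtain ⟨y, hy⟩ := hsome (i + 1) (by omega) (by omega)
        rw [← hscol i, hx, hy]
        rfl

end glue

end Pool.Agent.DDH
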